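import Pool.Agent.Helper111_Chain.Orient

set_option autoImplicit false

/-!
A list of positively oriented triangles whose boundary is that of the hull triangle covers every
generic point exactly once.
-/

namespace Pool.Agent.Helper111_Chain

open Classical in
/-- Signed crossing of an edge with the upward vertical ray. -/
noncomputable def eps (u v C : ℝ) : ℝ :=
  if v < 0 ∧ 0 < u ∧ 0 < C then 1 else if u < 0 ∧ 0 < v ∧ C < 0 then -1 else 0

theorem eps_anti (u v C : ℝ) : eps v u (-C) = - eps u v C := by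
  unfold eps
  rcases lt_trichotomy u 0 with hu | hu | hu <;> rcases lt_trichotomy v 0 with hv | hv | hv <;>
    rcases lt_trichotomy C 0 with hC | hC | hC <;>
    simp [hu, hv, hC, not_lt.2 hu.le, not_lt.2 hv.le, not_lt.2 hC.le]

open Classical in
theorem tri_eps {u v w A B C : ℝ} (hu : u ≠ 0) (hv : v ≠ 0) (hw : w ≠ 0) (hA : A ≠ 0)
    (hB : B ≠ 0) (hC : C ≠ 0) (h : A * u + B * v + C * w = 0) (hs : 0 < A + B + C) :
    eps u v C + eps v w A + eps w u B = if 0 < C ∧ 0 < A ∧ 0 < B then 1 else 0 := by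
  unfold eps
  rcases lt_or_gt_of_ne hu with hu | hu <;> rcases lt_or_gt_of_ne hv with hv | hv <;>
    rcases lt_or_gt_of_ne hw with hw | hw <;> rcases lt_or_gt_of_ne hA with hA | hA <;>
    rcases lt_or_gt_of_ne hB with hB | hB <;> rcases lt_or_gt_of_ne hC with hC | hC <;>
    simp [hu, hv, hw, hA, hB, hC, not_lt.2 hu.le, not_lt.2 hv.le, not_lt.2 hw.le,
      not_lt.2 hA.le, not_lt.2 hB.le, not_lt.2 hC.le] <;>
    nlinarith

/-- Crossing of the segment `p q` with the upward ray from `z`. -/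
noncomputable def cr (z p q : P) : ℝ := eps (p.1 - z.1) (q.1 - z.1) (o p q z)

theorem cr_anti (z p q : P) : cr z q p = - cr z p q := by
  unfold cr
  rw [o_swap12 p q z]
  exact eps_anti _ _ _

open Classical in
/-- Indicator of the open triangle. -/
noncomputable def ind (z : P) (f : P × P × P) : ℝ := if z ∈ opn f.1 f.2.1 f.2.2 then 1 else 0

theorem ind_nonneg (z : P) (f : P × P × P) : 0 ≤ ind z f := by
  unfold ind; split_ifs <;> norm_num

theorem cr_tri {z p q r : P} (h : 0 < o p q r) (h1 : z.1 ≠ p.1) (h2 : z.1 ≠ q.1) (h3 : z.1 ≠ r.1)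
    (h4 : o p q z ≠ 0) (h5 : o q r z ≠ 0) (h6 : o r p z ≠ 0) :
    cr z p q + cr z q r + cr z r p = ind z (p, q, r) := by
  unfold cr ind
  rw [tri_eps (A := o q r z) (B := o r p z) (C := o p q z)]
  · by_cases hc : 0 < o p q z ∧ 0 < o q r z ∧ 0 < o r p z
    · rw [if_pos hc, if_pos (show z ∈ opn p q r from hc)]
    · rw [if_neg hc, if_neg (show ¬ z ∈ opn p q r from hc)]
  · exact sub_ne_zero.2 (Ne.symm h1)
  · exact sub_ne_zero.2 (Ne.symm h2)
  · exact sub_ne_zero.2 (Ne.symm h3)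
  · exact h5
  · exact h6
  · exact h4
  · exact o_bary1 p q r z
  · have := o_sum p q r z; linarith

/-- The Finset of vertices of a face. -/
noncomputable def fs (f : P × P × P) : Finset P := {f.1, f.2.1, f.2.2}

theorem coe_fs (f : P × P × P) : ((fs f : Finset P) : Set P) = {f.1, f.2.1, f.2.2} := by
  unfold fs
  simp

/-- Hypotheses on a list of faces of a point set with triangular hull `A C B`. -/
structure Cov (S : Finset P) (F : List (P × P × P)) (A C B : P) : Prop where
  hA : A ∈ S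
  hC : C ∈ S
  hB : B ∈ S
  gp : ∀ p ∈ S, ∀ q ∈ S, ∀ r ∈ S, p ≠ q → p ≠ r → q ≠ r → o p q r ≠ 0
  mem : ∀ f ∈ F, f.1 ∈ S ∧ f.2.1 ∈ S ∧ f.2.2 ∈ S
  pos : ∀ f ∈ F, 0 < o f.1 f.2.1 f.2.2
  bd : ∀ w : P → P → ℝ, (∀ p q, w q p = - w p q) →
    (F.map (fun f => w f.1 f.2.1 + w f.2.1 f.2.2 + w f.2.2 f.1)).sum = w A C + w C B + w B A
  hull : 0 < o A C B
  inside : ∀ p ∈ S, p ∈ cls A C B
  used : ∀ p ∈ S, ∃ f ∈ F, p = f.1 ∨ p = f.2.1 ∨ p = f.2.2

theorem ne_of_pos {p q r : P} (h : 0 < o p q r) : p ≠ q ∧ q ≠ r ∧ r ≠ p := by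
  refine ⟨?_, ?_, ?_⟩
  · rintro rfl; rw [o_self12] at h; exact lt_irrefl _ h
  · rintro rfl; rw [o_self23] at h; exact lt_irrefl _ h
  · rintro rfl; rw [o_self13] at h; exact lt_irrefl _ h

theorem two_le_sum {α : Type*} (g : α → ℝ) : ∀ (F : List α), (∀ a ∈ F, 0 ≤ g a) →
    ∀ f ∈ F, ∀ f' ∈ F, f ≠ f' → g f + g f' ≤ (F.map g).sum := by
  have one : ∀ (F : List α), (∀ a ∈ F, 0 ≤ g a) → ∀ f ∈ F, g f ≤ (F.map g).sum := by
    intro F
    induction F with
    | nil => intro _ f hf; exact absurd hf (by simp)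
    | cons a F ih =>
      intro h f hf
      have hn : 0 ≤ (F.map g).sum :=
        List.sum_nonneg (by
          intro x hx
          obtain ⟨y, hy, rfl⟩ := List.mem_map.1 hx
          exact h y (List.mem_cons_of_mem _ hy))
      rw [List.map_cons, List.sum_cons]
      rcases List.mem_cons.1 hf with rfl | hf
      · linarith
      · have := ih (fun b hb => h b (List.mem_cons_of_mem _ hb)) f hf
        have := h a (List.mem_cons_self)
        linarith
  intro F
  induction F with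
  | nil => intro _ f hf; exact absurd hf (by simp)
  | cons a F ih =>
    intro h f hf f' hf' hne
    rw [List.map_cons, List.sum_cons]
    have h' : ∀ b ∈ F, 0 ≤ g b := fun b hb => h b (List.mem_cons_of_mem _ hb)
    rcases List.mem_cons.1 hf with e1 | hf1
    · rcases List.mem_cons.1 hf' with e2 | hf2
      · exact absurd (e1.trans e2.symm) hne
      · have := one F h' f' hf2
        rw [e1]
        linarith
    · rcases List.mem_cons.1 hf' with e2 | hf2
      · have := one F h' f hf1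
        rw [e2]
        linarith
      · have := ih h' f hf1 f' hf2 hne
        have := h a (List.mem_cons_self)
        linarith

variable {S : Finset P} {F : List (P × P × P)} {A C B : P}

theorem Cov.count (h : Cov S F A C B) {z : P} (hz : z ∈ Gen S) :
    (F.map (ind z)).sum = ind z (A, C, B) := by
  have key : ∀ p ∈ S, ∀ q ∈ S, ∀ r ∈ S, 0 < o p q r →
      cr z p q + cr z q r + cr z r p = ind z (p, q, r) := by
    intro p hp q hq r hr hpos
    obtain ⟨n1, n2, n3⟩ := ne_of_pos hpos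
    exact cr_tri hpos (hz.1 p hp) (hz.1 q hq) (hz.1 r hr) (hz.2 p hp q hq n1)
      (hz.2 q hq r hr n2) (hz.2 r hr p hp n3)
  have h1 := h.bd (cr z) (cr_anti z)
  rw [key A h.hA C h.hC B h.hB h.hull] at h1
  rw [← h1]
  congr 1
  apply List.map_congr_left
  intro f hf
  obtain ⟨m1, m2, m3⟩ := h.mem f hf
  exact (key _ m1 _ m2 _ m3 (h.pos f hf)).symm

theorem Cov.disj (h : Cov S F A C B) {f f' : P × P × P} (hf : f ∈ F) (hf' : f' ∈ F)
    (hne : f ≠ f') : opn f.1 f.2.1 f.2.2 ∩ opn f'.1 f'.2.1 f'.2.2 = ∅ := by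
  by_contra hc
  have hne' : (opn f.1 f.2.1 f.2.2 ∩ opn f'.1 f'.2.1 f'.2.2).Nonempty :=
    Set.nonempty_iff_ne_empty.2 hc
  obtain ⟨z, hz, hzG⟩ := (dense_Gen S).inter_open_nonempty _
    ((isOpen_opn _ _ _).inter (isOpen_opn _ _ _)) hne'
  have h1 := h.count hzG
  have h2 := two_le_sum (ind z) F (fun a _ => ind_nonneg z a) f hf f' hf' hne
  have h3 : ind z f = 1 := by unfold ind; rw [if_pos hz.1]
  have h4 : ind z f' = 1 := by unfold ind; rw [if_pos hz.2]
  have h5 : ind z (A, C, B) ≤ 1 := by unfold ind; split_ifs <;> norm_num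
  rw [h3, h4, h1] at h2
  linarith

theorem Cov.cover (h : Cov S F A C B) {z : P} (hzG : z ∈ Gen S) (hz : z ∈ opn A C B) :
    ∃ f ∈ F, z ∈ opn f.1 f.2.1 f.2.2 := by
  by_contra hc
  push Not at hc
  have h1 := h.count hzG
  have h2 : ind z (A, C, B) = 1 := by unfold ind; rw [if_pos hz]
  have h3 : (F.map (ind z)).sum = 0 := by
    apply List.sum_eq_zero
    intro x hx
    obtain ⟨f, hf, rfl⟩ := List.mem_map.1 hx
    unfold ind
    rw [if_neg (hc f hf)]
  rw [h2, h3] at h1
  norm_num at h1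

/-- The set of triangles. -/
noncomputable def tset (F : List (P × P × P)) : Finset (Finset P) := (F.map fs).toFinset

theorem mem_tset {F : List (P × P × P)} {t : Finset P} : t ∈ tset F ↔ ∃ f ∈ F, fs f = t := by
  unfold tset
  simp

theorem Cov.hull_eq (h : Cov S F A C B) :
    convexHull ℝ (S : Set P) = cls A C B := by
  rw [← hull_eq_cls h.hull]
  apply Set.Subset.antisymm
  · apply convexHull_min _ (convex_convexHull ℝ _)
    intro p hp
    rw [hull_eq_cls h.hull]
    exact h.inside p hp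
  · apply convexHull_mono
    intro p hp
    rcases hp with rfl | rfl | rfl
    · exact h.hA
    · exact h.hC
    · exact h.hB

theorem Cov.conv_fs (h : Cov S F A C B) {f : P × P × P} (hf : f ∈ F) :
    convexHull ℝ ((fs f : Finset P) : Set P) = cls f.1 f.2.1 f.2.2 := by
  rw [coe_fs, hull_eq_cls (h.pos f hf)]

theorem Cov.int_fs (h : Cov S F A C B) {f : P × P × P} (hf : f ∈ F) :
    interior (convexHull ℝ ((fs f : Finset P) : Set P)) = opn f.1 f.2.1 f.2.2 := by
  rw [coe_fs, interior_hull_eq (h.pos f hf)]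

theorem Cov.interiors (h : Cov S F A C B) : ∀ t ∈ tset F, ∀ t' ∈ tset F, t ≠ t' →
    interior (convexHull ℝ (t : Set P)) ∩ interior (convexHull ℝ (t' : Set P)) = ∅ := by
  intro t ht t' ht' hne
  obtain ⟨f, hf, rfl⟩ := mem_tset.1 ht
  obtain ⟨f', hf', rfl⟩ := mem_tset.1 ht'
  rw [h.int_fs hf, h.int_fs hf']
  apply h.disj hf hf'
  rintro rfl
  exact hne rfl

theorem Cov.union (h : Cov S F A C B) :
    (⋃ t ∈ tset F, convexHull ℝ (t : Set P)) = convexHull ℝ (S : Set P) := by
  apply Set.Subset.antisymm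
  · intro z hz
    simp only [Set.mem_iUnion] at hz
    obtain ⟨t, ht, hz⟩ := hz
    obtain ⟨f, hf, rfl⟩ := mem_tset.1 ht
    refine convexHull_mono ?_ hz
    rw [coe_fs]
    obtain ⟨m1, m2, m3⟩ := h.mem f hf
    intro p hp
    rcases hp with rfl | rfl | rfl
    · exact m1
    · exact m2
    · exact m3
  · rw [h.hull_eq]
    have hcl : IsClosed (⋃ t ∈ tset F, convexHull ℝ (t : Set P)) := by
      apply Set.Finite.isClosed_biUnion (tset F).finite_toSet
      intro t _
      exact (t.finite_toSet.isCompact_convexHull ℝ).isClosed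
    have h1 : opn A C B ∩ Gen S ⊆ ⋃ t ∈ tset F, convexHull ℝ (t : Set P) := by
      rintro z ⟨hz, hzG⟩
      obtain ⟨f, hf, hzf⟩ := h.cover hzG hz
      simp only [Set.mem_iUnion]
      refine ⟨fs f, mem_tset.2 ⟨f, hf, rfl⟩, ?_⟩
      rw [h.conv_fs hf]
      exact opn_sub_cls _ _ _ hzf
    have h2 : opn A C B ⊆ closure (opn A C B ∩ Gen S) :=
      (dense_Gen S).open_subset_closure_inter (isOpen_opn A C B)
    have h3 : closure (opn A C B) ⊆ closure (opn A C B ∩ Gen S) := closure_minimal h2 isClosed_closure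
    exact (cls_sub_closure_opn h.hull).trans (h3.trans (closure_minimal h1 hcl))

theorem Cov.empty (h : Cov S F A C B) : ∀ t ∈ tset F, t ⊆ S ∧ t.card = 3 ∧
    ∀ p ∈ S, p ∈ convexHull ℝ (t : Set P) → p ∈ t := by
  intro t ht
  obtain ⟨f, hf, rfl⟩ := mem_tset.1 ht
  obtain ⟨m1, m2, m3⟩ := h.mem f hf
  obtain ⟨n1, n2, n3⟩ := ne_of_pos (h.pos f hf)
  refine ⟨?_, ?_, ?_⟩
  · intro p hp
    unfold fs at hp
    simp only [Finset.mem_insert, Finset.mem_singleton] at hp
    rcases hp with rfl | rfl | rfl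
    · exact m1
    · exact m2
    · exact m3
  · unfold fs
    rw [Finset.card_insert_of_notMem, Finset.card_insert_of_notMem, Finset.card_singleton]
    · simpa using n2
    · simp only [Finset.mem_insert, Finset.mem_singleton, not_or]
      exact ⟨n1, Ne.symm n3⟩
  · intro p hp hpc
    by_contra hpt
    rw [h.conv_fs hf] at hpc
    unfold fs at hpt
    simp only [Finset.mem_insert, Finset.mem_singleton, not_or] at hpt
    obtain ⟨e1, e2, e3⟩ := hpt
    have hp1 : p ∈ opn f.1 f.2.1 f.2.2 := by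
      refine ⟨lt_of_le_of_ne hpc.1 (Ne.symm ?_), lt_of_le_of_ne hpc.2.1 (Ne.symm ?_),
        lt_of_le_of_ne hpc.2.2 (Ne.symm ?_)⟩
      · exact h.gp _ m1 _ m2 _ hp n1 (Ne.symm e1) (Ne.symm e2)
      · exact h.gp _ m2 _ m3 _ hp n2 (Ne.symm e2) (Ne.symm e3)
      · exact h.gp _ m3 _ m1 _ hp n3 (Ne.symm e3) (Ne.symm e1)
    obtain ⟨f', hf', hpf'⟩ := h.used p hp
    have hne : f ≠ f' := by
      rintro rfl
      rcases hpf' with h' | h' | h'
      · exact e1 h'
      · exact e2 h'
      · exact e3 h'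
    have hcl : p ∈ closure (opn f'.1 f'.2.1 f'.2.2) := by
      apply cls_sub_closure_opn (h.pos f' hf')
      rw [← hull_eq_cls (h.pos f' hf')]
      apply subset_convexHull
      rcases hpf' with h' | h' | h' <;> rw [h'] <;> simp
    obtain ⟨z, hz1, hz2⟩ := mem_closure_iff.1 hcl _ (isOpen_opn _ _ _) hp1
    have := h.disj hf hf' hne
    have hz : z ∈ opn f.1 f.2.1 f.2.2 ∩ opn f'.1 f'.2.1 f'.2.2 := ⟨hz1, hz2⟩
    rw [this] at hz
    exact hz

end Pool.Agent.Helper111_Chain
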