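import Pool.Agent.Helper111_Chain.Peel

set_option autoImplicit false

/-!
Convex hull facts for finite planar sets.
-/

namespace Pool.Agent.Helper111_Chain

/-- The hull vertices of a finite set, as in the problem's Lean file. -/
def hv (S : Finset P) : Set P :=
  {p | p ∈ (S : Set P) ∧ p ∉ convexHull ℝ ((S : Set P) \ {p})}

theorem hv_sub (S : Finset P) : hv S ⊆ (S : Set P) := fun _ h => h.1

theorem conv_hv (S : Finset P) : convexHull ℝ (hv S) = convexHull ℝ (S : Set P) := by
  apply Set.Subset.antisymm (convexHull_mono (hv_sub S))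
  have hcomp : IsCompact (convexHull ℝ (S : Set P)) := S.finite_toSet.isCompact_convexHull ℝ
  have hconv : Convex ℝ (convexHull ℝ (S : Set P)) := convex_convexHull ℝ _
  have hKM := closure_convexHull_extremePoints hcomp hconv
  have hext : (convexHull ℝ (S : Set P)).extremePoints ℝ ⊆ hv S := by
    intro p hp
    refine ⟨extremePoints_convexHull_subset hp, ?_⟩
    rw [hconv.mem_extremePoints_iff_mem_sdiff_convexHull_sdiff] at hp
    intro hc
    apply hp.2
    refine convexHull_mono ?_ hc
    intro q hq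
    exact ⟨subset_convexHull ℝ _ hq.1, hq.2⟩
  have hfin : (hv S).Finite := S.finite_toSet.subset (hv_sub S)
  have hcl : IsClosed (convexHull ℝ (hv S)) := (hfin.isCompact_convexHull ℝ).isClosed
  calc convexHull ℝ (S : Set P)
      = closure (convexHull ℝ ((convexHull ℝ (S : Set P)).extremePoints ℝ)) := hKM.symm
    _ ⊆ closure (convexHull ℝ (hv S)) := closure_mono (convexHull_mono hext)
    _ = convexHull ℝ (hv S) := hcl.closure_eq

theorem hull_triangle (S : Finset P)
    (hgp : ∀ a ∈ S, ∀ b ∈ S, ∀ c ∈ S, a ≠ b → a ≠ c → b ≠ c →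
      ¬ Collinear ℝ ({a, b, c} : Set P))
    (h3 : (hv S).ncard = 3) :
    ∃ A ∈ S, ∃ C ∈ S, ∃ B ∈ S, 0 < o A C B ∧ ∀ p ∈ S, p ∈ cls A C B := by
  obtain ⟨x, y, z, hxy, hxz, hyz, hE⟩ := Set.ncard_eq_three.1 h3
  have hx : x ∈ S := by
    have : x ∈ hv S := by rw [hE]; simp
    exact hv_sub S this
  have hy : y ∈ S := by
    have : y ∈ hv S := by rw [hE]; simp
    exact hv_sub S this
  have hz : z ∈ S := by
    have : z ∈ hv S := by rw [hE]; simp
    exact hv_sub S this
  have hne := o_ne_of_not_collinear (hgp x hx y hy z hz hxy hxz hyz)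
  have hconv := conv_hv S
  rcases lt_or_gt_of_ne hne with h | h
  · refine ⟨x, hx, z, hz, y, hy, ?_, ?_⟩
    · rw [o_swap23]; linarith
    · intro p hp
      have h' : 0 < o x z y := by rw [o_swap23]; linarith
      rw [← hull_eq_cls h']
      have : ({x, z, y} : Set P) = hv S := by
        rw [hE]; ext q; simp only [Set.mem_insert_iff, Set.mem_singleton_iff]; tauto
      rw [this, hconv]
      exact subset_convexHull ℝ _ hp
  · refine ⟨x, hx, y, hy, z, hz, h, ?_⟩
    intro p hp
    rw [← hull_eq_cls h, ← hE, hconv]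
    exact subset_convexHull ℝ _ hp

/-- Initial segments of prescribed size for an injective real key. -/
theorem exists_initial (X : Finset P) (key : P → ℝ) :
    ∀ m ≤ X.card, ∃ L ⊆ X, L.card = m ∧ ∀ x ∈ L, ∀ y ∈ X \ L, key x ≤ key y := by
  classical
  intro m
  induction m with
  | zero =>
    intro _
    exact ⟨∅, by simp, by simp, by simp⟩
  | succ m ih =>
    intro hm
    obtain ⟨L, hL, hc, hk⟩ := ih (by omega)
    have hne : (X \ L).Nonempty := by
      rw [← Finset.card_pos, Finset.card_sdiff_of_subset hL]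
      omega
    obtain ⟨x₀, hx₀, hmin⟩ := (X \ L).exists_min_image key hne
    rw [Finset.mem_sdiff] at hx₀
    refine ⟨insert x₀ L, ?_, ?_, ?_⟩
    · intro p hp
      rcases Finset.mem_insert.1 hp with rfl | hp
      · exact hx₀.1
      · exact hL hp
    · rw [Finset.card_insert_of_notMem hx₀.2, hc]
    · intro x hx y hy
      rw [Finset.mem_sdiff, Finset.mem_insert, not_or] at hy
      have hy' : y ∈ X \ L := Finset.mem_sdiff.2 ⟨hy.1, hy.2.2⟩
      rcases Finset.mem_insert.1 hx with rfl | hx
      · exact hmin y hy'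
      · exact hk x hx y hy'

/-- Splitting by direction seen from the apex `b` of the triangle `a c b`. -/
theorem exists_split (a c b : P) (X : Finset P) (m : ℕ) (hm : m ≤ X.card)
    (hin : ∀ x ∈ X, 0 < o b a x ∧ 0 < o c b x)
    (hgp : ∀ x ∈ X, ∀ y ∈ X, x ≠ y → o b x y ≠ 0) (hacb : 0 < o a c b) :
    ∃ L ⊆ X, L.card = m ∧ ∀ x ∈ L, ∀ y ∈ X \ L, 0 < o b x y := by
  obtain ⟨L, hL, hc, hk⟩ := exists_initial X (fun x => o b a x / o c b x) m hm
  refine ⟨L, hL, hc, fun x hx y hy => ?_⟩
  have hy' := Finset.mem_sdiff.1 hy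
  have h1 := hk x hx y hy
  obtain ⟨x1, x2⟩ := hin x (hL hx)
  obtain ⟨y1, y2⟩ := hin y hy'.1
  rw [div_le_div_iff₀ x2 y2] at h1
  have hne : x ≠ y := by rintro rfl; exact hy'.2 hx
  have hgp' := hgp x (hL hx) y hy'.1 hne
  have key : o a c b * o b x y = o b a y * o c b x - o b a x * o c b y := by
    unfold o; ring
  have : 0 ≤ o a c b * o b x y := by rw [key]; linarith
  have h2 : 0 ≤ o b x y := by
    by_contra hcon
    push Not at hcon
    nlinarith
  exact lt_of_le_of_ne h2 (Ne.symm hgp')

end Pool.Agent.Helper111_Chain
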