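import Pool.Agent.Helper111_Chain.Cover

set_option autoImplicit false

/-!
Compatible triangulations from a common list of labelled faces.
-/

namespace Pool.Agent.Helper111_Chain

/-- `S₁` and `S₂` admit compatible triangulations, in the wording of the problem's Lean file. -/
def Compat (S₁ S₂ : Finset (ℝ × ℝ)) : Prop :=
    ∃ T₁ T₂ : Finset (Finset (ℝ × ℝ)),
      (∀ t ∈ T₁, t ⊆ S₁ ∧ t.card = 3 ∧
          ∀ p ∈ S₁, p ∈ convexHull ℝ (t : Set (ℝ × ℝ)) → p ∈ t) ∧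
      (∀ t ∈ T₁, ∀ t' ∈ T₁, t ≠ t' →
          interior (convexHull ℝ (t : Set (ℝ × ℝ))) ∩
            interior (convexHull ℝ (t' : Set (ℝ × ℝ))) = ∅) ∧
      (⋃ t ∈ T₁, convexHull ℝ (t : Set (ℝ × ℝ))) = convexHull ℝ (S₁ : Set (ℝ × ℝ)) ∧
      (∀ t ∈ T₂, t ⊆ S₂ ∧ t.card = 3 ∧
          ∀ p ∈ S₂, p ∈ convexHull ℝ (t : Set (ℝ × ℝ)) → p ∈ t) ∧
      (∀ t ∈ T₂, ∀ t' ∈ T₂, t ≠ t' →
          interior (convexHull ℝ (t : Set (ℝ × ℝ))) ∩
            interior (convexHull ℝ (t' : Set (ℝ × ℝ))) = ∅) ∧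
      (⋃ t ∈ T₂, convexHull ℝ (t : Set (ℝ × ℝ))) = convexHull ℝ (S₂ : Set (ℝ × ℝ)) ∧
      ∃ φ : ℝ × ℝ → ℝ × ℝ, Set.BijOn φ (S₁ : Set (ℝ × ℝ)) (S₂ : Set (ℝ × ℝ)) ∧
        ∀ t : Finset (ℝ × ℝ), t ⊆ S₁ → (t ∈ T₁ ↔ t.image φ ∈ T₂)

/-- Apply a labelling to a face. -/
def mp {ι : Type*} (x : ι → P) (f : ι × ι × ι) : P × P × P := (x f.1, x f.2.1, x f.2.2)

theorem master {ι : Type*} [Nonempty ι] (F : List (ι × ι × ι)) (x y : ι → P)
    (S₁ S₂ : Finset P) (a c b : ι)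
    (h1 : Cov S₁ (F.map (mp x)) (x a) (x c) (x b))
    (h2 : Cov S₂ (F.map (mp y)) (y a) (y c) (y b))
    (I : Set ι) (hI : ∀ f ∈ F, f.1 ∈ I ∧ f.2.1 ∈ I ∧ f.2.2 ∈ I)
    (hx : Set.BijOn x I (S₁ : Set P)) (hy : Set.BijOn y I (S₂ : Set P)) : Compat S₁ S₂ := by
  have hinv := hx.invOn_invFunOn
  have hg : Set.BijOn (Function.invFunOn x I) (S₁ : Set P) I := hx.symm hinv.symm
  have hφ : Set.BijOn (y ∘ Function.invFunOn x I) (S₁ : Set P) (S₂ : Set P) := hy.comp hg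
  have hφx : ∀ i ∈ I, (y ∘ Function.invFunOn x I) (x i) = y i := by
    intro i hi
    simp only [Function.comp_apply]
    rw [hinv.1 hi]
  have himg : ∀ f ∈ F, (fs (mp x f)).image (y ∘ Function.invFunOn x I) = fs (mp y f) := by
    intro f hf
    obtain ⟨i1, i2, i3⟩ := hI f hf
    unfold fs mp
    simp only [Finset.image_insert, Finset.image_singleton]
    rw [hφx _ i1, hφx _ i2, hφx _ i3]
  refine ⟨tset (F.map (mp x)), tset (F.map (mp y)), h1.empty, h1.interiors, h1.union,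
    h2.empty, h2.interiors, h2.union, y ∘ Function.invFunOn x I, hφ, ?_⟩
  intro t ht
  constructor
  · intro htT
    obtain ⟨g, hg', rfl⟩ := mem_tset.1 htT
    obtain ⟨f, hf, rfl⟩ := List.mem_map.1 hg'
    rw [himg f hf]
    exact mem_tset.2 ⟨_, List.mem_map.2 ⟨f, hf, rfl⟩, rfl⟩
  · intro htT
    obtain ⟨g, hg', hge⟩ := mem_tset.1 htT
    obtain ⟨f, hf, rfl⟩ := List.mem_map.1 hg'
    rw [← himg f hf] at hge
    have hmem : fs (mp x f) ∈ tset (F.map (mp x)) :=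
      mem_tset.2 ⟨_, List.mem_map.2 ⟨f, hf, rfl⟩, rfl⟩
    have hsub : fs (mp x f) ⊆ S₁ := (h1.empty _ hmem).1
    have : (t : Set P) = (fs (mp x f) : Set P) := by
      apply (hφ.injOn.image_eq_image_iff (by exact_mod_cast ht) (by exact_mod_cast hsub)).1
      rw [← Finset.coe_image, ← Finset.coe_image, hge]
    have : t = fs (mp x f) := by exact_mod_cast this
    rw [this]
    exact hmem

end Pool.Agent.Helper111_Chain
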