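import Mathlib

set_option autoImplicit false

/-!
Orientation determinant in the real plane and elementary facts on triangles.
-/

namespace Pool.Agent.Helper111_Chain

/-- The plane. -/
abbrev P := ℝ × ℝ

/-- Twice the signed area of the triangle `p q r`. -/
def o (p q r : P) : ℝ := (q.1 - p.1) * (r.2 - p.2) - (q.2 - p.2) * (r.1 - p.1)

theorem o_cyc (p q r : P) : o q r p = o p q r := by unfold o; ring

theorem o_cyc' (p q r : P) : o r p q = o p q r := by unfold o; ring

theorem o_swap12 (p q r : P) : o q p r = - o p q r := by unfold o; ring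

theorem o_swap23 (p q r : P) : o p r q = - o p q r := by unfold o; ring

theorem o_swap13 (p q r : P) : o r q p = - o p q r := by unfold o; ring

theorem o_self12 (p r : P) : o p p r = 0 := by unfold o; ring

theorem o_self13 (p q : P) : o p q p = 0 := by unfold o; ring

theorem o_self23 (p q : P) : o p q q = 0 := by unfold o; ring

theorem o_sum (p q r z : P) : o p q z + o q r z + o r p z = o p q r := by unfold o; ring

/-- Cramer relation, first coordinate. -/
theorem o_bary1 (p q r z : P) :
    o q r z * (p.1 - z.1) + o r p z * (q.1 - z.1) + o p q z * (r.1 - z.1) = 0 := by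
  unfold o; ring

theorem o_bary2 (p q r z : P) :
    o q r z * (p.2 - z.2) + o r p z * (q.2 - z.2) + o p q z * (r.2 - z.2) = 0 := by
  unfold o; ring

/-- Grassmann-Pluecker relation at the pivot `z`. -/
theorem o_gp (z a b c d : P) :
    o z a b * o z c d = o z a c * o z b d - o z a d * o z b c := by
  unfold o; ring

theorem o_ne_of_not_collinear {p q r : P} (h : ¬ Collinear ℝ ({p, q, r} : Set P)) :
    o p q r ≠ 0 := by
  intro h0
  apply h
  by_cases hpq : p = q
  · subst hpq
    simp only [Set.insert_eq_of_mem, Set.mem_insert_iff, true_or]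
    exact collinear_pair ℝ p r
  · rw [collinear_iff_of_mem (p₀ := p) (by simp)]
    refine ⟨q - p, ?_⟩
    intro s hs
    rcases hs with rfl | rfl | rfl
    · exact ⟨0, by simp⟩
    · exact ⟨1, by simp⟩
    · by_cases h1 : q.1 - p.1 = 0
      · have h2 : q.2 - p.2 ≠ 0 := by
          intro h2
          apply hpq
          ext
          · linarith
          · linarith
        refine ⟨(s.2 - p.2) / (q.2 - p.2), ?_⟩
        have h3 : s.1 - p.1 = 0 := by
          unfold o at h0
          rw [h1] at h0
          have : (q.2 - p.2) * (s.1 - p.1) = 0 := by linarith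
          rcases mul_eq_zero.1 this with h | h
          · exact absurd h h2
          · exact h
        ext
        · simp only [vadd_eq_add, Prod.fst_add, Prod.smul_fst, Prod.fst_sub, smul_eq_mul, h1]
          linarith
        · simp only [vadd_eq_add, Prod.snd_add, Prod.smul_snd, Prod.snd_sub, smul_eq_mul]
          field_simp
          ring
      · refine ⟨(s.1 - p.1) / (q.1 - p.1), ?_⟩
        ext
        · simp only [vadd_eq_add, Prod.fst_add, Prod.smul_fst, Prod.fst_sub, smul_eq_mul]
          field_simp
          ring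
        · simp only [vadd_eq_add, Prod.snd_add, Prod.smul_snd, Prod.snd_sub, smul_eq_mul]
          field_simp
          unfold o at h0
          linarith

/-- The affine function `o p q ·` along a convex combination of points. -/
theorem o_comb (p q a b : P) (s t : ℝ) (hst : s + t = 1) :
    o p q (s • a + t • b) = s * o p q a + t * o p q b := by
  have ht : t = 1 - s := by linarith
  subst ht
  unfold o
  simp only [Prod.fst_add, Prod.snd_add, Prod.smul_fst, Prod.smul_snd, smul_eq_mul]
  ring

theorem convex_o_nonneg (p q : P) : Convex ℝ {z : P | 0 ≤ o p q z} := by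
  intro a ha b hb s t hs ht hst
  simp only [Set.mem_ofPred_eq] at *
  rw [o_comb p q a b s t hst]
  positivity

theorem continuous_o (p q : P) : Continuous (fun z : P => o p q z) := by
  unfold o; fun_prop

theorem isOpen_o_pos (p q : P) : IsOpen {z : P | 0 < o p q z} :=
  isOpen_lt continuous_const (continuous_o p q)

theorem isOpen_o_ne (p q : P) : IsOpen {z : P | o p q z ≠ 0} :=
  isOpen_ne_fun (continuous_o p q) continuous_const

/-- The open triangle. -/
def opn (p q r : P) : Set P := {z | 0 < o p q z ∧ 0 < o q r z ∧ 0 < o r p z}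

/-- The closed triangle. -/
def cls (p q r : P) : Set P := {z | 0 ≤ o p q z ∧ 0 ≤ o q r z ∧ 0 ≤ o r p z}

theorem isOpen_opn (p q r : P) : IsOpen (opn p q r) := by
  have : opn p q r = {z : P | 0 < o p q z} ∩ ({z : P | 0 < o q r z} ∩ {z : P | 0 < o r p z}) := rfl
  rw [this]
  exact (isOpen_o_pos p q).inter ((isOpen_o_pos q r).inter (isOpen_o_pos r p))

theorem opn_sub_cls (p q r : P) : opn p q r ⊆ cls p q r :=
  fun _ h => ⟨h.1.le, h.2.1.le, h.2.2.le⟩

theorem hull_sub_cls {p q r : P} (h : 0 < o p q r) :
    convexHull ℝ ({p, q, r} : Set P) ⊆ cls p q r := by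
  have hc : Convex ℝ (cls p q r) := by
    have : cls p q r = {z : P | 0 ≤ o p q z} ∩ ({z : P | 0 ≤ o q r z} ∩ {z : P | 0 ≤ o r p z}) := rfl
    rw [this]
    exact (convex_o_nonneg p q).inter ((convex_o_nonneg q r).inter (convex_o_nonneg r p))
  apply convexHull_min _ hc
  intro z hz
  rcases hz with rfl | rfl | rfl
  · exact ⟨by rw [o_self13], by rw [o_cyc]; exact h.le, by rw [o_self23]⟩
  · exact ⟨by rw [o_self23], by rw [o_self13], by rw [o_cyc']; exact h.le⟩
  · exact ⟨h.le, by rw [o_self23], by rw [o_self13]⟩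

theorem cls_sub_hull {p q r : P} (h : 0 < o p q r) :
    cls p q r ⊆ convexHull ℝ ({p, q, r} : Set P) := by
  intro z hz
  obtain ⟨h1, h2, h3⟩ := hz
  rw [convexHull_insert (by simp), convexHull_pair]
  simp only [mem_convexJoin, Set.mem_singleton_iff, exists_eq_left]
  have hs := o_sum p q r z
  have hb1 := o_bary1 p q r z
  have hb2 := o_bary2 p q r z
  set A := o q r z
  set B := o r p z
  set C := o p q z
  by_cases hBC : B + C = 0
  · have hB : B = 0 := by linarith
    have hC : C = 0 := by linarith
    refine ⟨q, left_mem_segment ℝ q r, ?_⟩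
    have hA : 0 < A := by linarith
    have : z = p := by
      ext
      · rw [hB, hC] at hb1
        have : A * (p.1 - z.1) = 0 := by linarith
        rcases mul_eq_zero.1 this with h' | h'
        · exact absurd h' hA.ne'
        · linarith
      · rw [hB, hC] at hb2
        have : A * (p.2 - z.2) = 0 := by linarith
        rcases mul_eq_zero.1 this with h' | h'
        · exact absurd h' hA.ne'
        · linarith
    rw [this]
    exact left_mem_segment ℝ p q
  · have hBC' : 0 < B + C := lt_of_le_of_ne (by linarith) (Ne.symm hBC)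
    refine ⟨(B / (B + C)) • q + (C / (B + C)) • r, ?_, ?_⟩
    · exact ⟨B / (B + C), C / (B + C), by positivity, by positivity, by field_simp, rfl⟩
    · refine ⟨A / o p q r, (B + C) / o p q r, by positivity, by positivity, ?_, ?_⟩
      · rw [← add_div, div_eq_one_iff_eq h.ne']; linarith
      · ext
        · simp only [Prod.fst_add, Prod.smul_fst, smul_eq_mul]
          rw [← hs]
          have : C + A + B ≠ 0 := by rw [hs]; exact h.ne'
          field_simp
          linarith
        · simp only [Prod.snd_add, Prod.smul_snd, smul_eq_mul]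
          rw [← hs]
          have : C + A + B ≠ 0 := by rw [hs]; exact h.ne'
          field_simp
          linarith

theorem hull_eq_cls {p q r : P} (h : 0 < o p q r) :
    convexHull ℝ ({p, q, r} : Set P) = cls p q r :=
  (hull_sub_cls h).antisymm (cls_sub_hull h)

/-- A moving point: `o p q` grows along the normal direction. -/
theorem o_normal (p q z : P) (t : ℝ) :
    o p q (z.1 - t * (q.2 - p.2), z.2 + t * (q.1 - p.1)) =
      o p q z + t * ((q.1 - p.1) ^ 2 + (q.2 - p.2) ^ 2) := by
  unfold o; ring

theorem sq_pos_of_ne {p q : P} (h : p ≠ q) : 0 < (q.1 - p.1) ^ 2 + (q.2 - p.2) ^ 2 := by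
  by_contra hc
  apply h
  have h1 : (q.1 - p.1) ^ 2 = 0 := by nlinarith [sq_nonneg (q.1 - p.1), sq_nonneg (q.2 - p.2)]
  have h2 : (q.2 - p.2) ^ 2 = 0 := by nlinarith [sq_nonneg (q.1 - p.1), sq_nonneg (q.2 - p.2)]
  have h1' := pow_eq_zero_iff (n := 2) (by norm_num) |>.1 h1
  have h2' := pow_eq_zero_iff (n := 2) (by norm_num) |>.1 h2
  ext
  · linarith
  · linarith

/-- In every neighbourhood of `z` the function `o p q` takes a value below that at `z`. -/
theorem exists_lt_near {p q z : P} (h : p ≠ q) {U : Set P} (hU : IsOpen U) (hz : z ∈ U) :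
    ∃ z' ∈ U, o p q z' < o p q z := by
  have hcont : Continuous (fun t : ℝ => ((z.1 - t * (q.2 - p.2), z.2 + t * (q.1 - p.1)) : P)) := by
    fun_prop
  have h0 : (fun t : ℝ => ((z.1 - t * (q.2 - p.2), z.2 + t * (q.1 - p.1)) : P)) 0 ∈ U := by
    simpa using hz
  have hV : IsOpen ((fun t : ℝ => ((z.1 - t * (q.2 - p.2), z.2 + t * (q.1 - p.1)) : P)) ⁻¹' U) :=
    hU.preimage hcont
  obtain ⟨ε, hε, hball⟩ := Metric.isOpen_iff.1 hV 0 h0
  have hmem : (-(ε / 2)) ∈ Metric.ball (0 : ℝ) ε := by
    rw [Metric.mem_ball, Real.dist_eq]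
    rw [sub_zero, abs_neg, abs_of_pos (by positivity)]
    linarith
  refine ⟨_, hball hmem, ?_⟩
  · rw [o_normal]
    have := sq_pos_of_ne h
    nlinarith

theorem interior_cls_sub {p q r : P} (h : 0 < o p q r) : interior (cls p q r) ⊆ opn p q r := by
  have hpq : p ≠ q := by rintro rfl; rw [o_self12] at h; exact lt_irrefl _ h
  have hqr : q ≠ r := by rintro rfl; rw [o_self23] at h; exact lt_irrefl _ h
  have hrp : r ≠ p := by rintro rfl; rw [o_self13] at h; exact lt_irrefl _ h
  intro z hz
  refine ⟨?_, ?_, ?_⟩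
  · obtain ⟨z', hz', hlt⟩ := exists_lt_near hpq isOpen_interior hz
    have := (interior_subset hz').1
    linarith
  · obtain ⟨z', hz', hlt⟩ := exists_lt_near hqr isOpen_interior hz
    have := (interior_subset hz').2.1
    linarith
  · obtain ⟨z', hz', hlt⟩ := exists_lt_near hrp isOpen_interior hz
    have := (interior_subset hz').2.2
    linarith

theorem interior_hull_eq {p q r : P} (h : 0 < o p q r) :
    interior (convexHull ℝ ({p, q, r} : Set P)) = opn p q r := by
  rw [hull_eq_cls h]
  exact (interior_cls_sub h).antisymm (interior_maximal (opn_sub_cls p q r) (isOpen_opn p q r))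

/-- The closed triangle lies in the closure of the open one. -/
theorem cls_sub_closure_opn {p q r : P} (h : 0 < o p q r) : cls p q r ⊆ closure (opn p q r) := by
  have hc : Convex ℝ (cls p q r) := by
    have : cls p q r = {z : P | 0 ≤ o p q z} ∩ ({z : P | 0 ≤ o q r z} ∩ {z : P | 0 ≤ o r p z}) := rfl
    rw [this]
    exact (convex_o_nonneg p q).inter ((convex_o_nonneg q r).inter (convex_o_nonneg r p))
  have hne : (interior (cls p q r)).Nonempty := by
    refine ⟨((1/3 : ℝ) * (p.1 + q.1 + r.1), (1/3 : ℝ) * (p.2 + q.2 + r.2)), ?_⟩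
    apply interior_maximal (opn_sub_cls p q r) (isOpen_opn p q r)
    refine ⟨?_, ?_, ?_⟩
    · have : o p q ((1/3 : ℝ) * (p.1 + q.1 + r.1), (1/3 : ℝ) * (p.2 + q.2 + r.2)) = o p q r / 3 := by
        unfold o; ring
      rw [this]; positivity
    · have : o q r ((1/3 : ℝ) * (p.1 + q.1 + r.1), (1/3 : ℝ) * (p.2 + q.2 + r.2)) = o p q r / 3 := by
        unfold o; ring
      rw [this]; positivity
    · have : o r p ((1/3 : ℝ) * (p.1 + q.1 + r.1), (1/3 : ℝ) * (p.2 + q.2 + r.2)) = o p q r / 3 := by
        unfold o; ring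
      rw [this]; positivity
  intro z hz
  have h1 : closure (interior (cls p q r)) = closure (cls p q r) :=
    hc.closure_interior_eq_closure_of_nonempty_interior hne
  have h2 : z ∈ closure (interior (cls p q r)) := by rw [h1]; exact subset_closure hz
  exact closure_mono (interior_cls_sub h) h2

/-- Generic points are dense. -/
theorem dense_o_ne {p q : P} (h : p ≠ q) : Dense {z : P | o p q z ≠ 0} := by
  rw [dense_iff_inter_open]
  intro U hU ⟨z, hz⟩
  by_cases h0 : o p q z = 0
  · obtain ⟨z', hz', hlt⟩ := exists_lt_near h hU hz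
    exact ⟨z', hz', by simp only [Set.mem_ofPred_eq]; intro h1; rw [h0, h1] at hlt; exact lt_irrefl _ hlt⟩
  · exact ⟨z, hz, h0⟩

theorem dense_fst_ne (a : ℝ) : Dense {z : P | z.1 ≠ a} := by
  have : {z : P | z.1 ≠ a} = {z : P | o (a, 0) (a, 1) z ≠ 0} := by
    ext z
    simp only [Set.mem_ofPred_eq]
    unfold o
    constructor
    · intro h h'
      apply h
      simp only at h'
      linarith
    · intro h h'
      apply h
      simp only
      rw [h']
      ring
  rw [this]
  apply dense_o_ne
  intro h
  have := congrArg Prod.snd h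
  norm_num at this

theorem isOpen_fst_ne (a : ℝ) : IsOpen {z : P | z.1 ≠ a} :=
  isOpen_ne_fun continuous_fst continuous_const

/-- `z` is generic for the finite set `S`: on no vertical line through, and no line spanned by,
points of `S`. -/
def Gen (S : Finset P) : Set P :=
  {z | (∀ p ∈ S, z.1 ≠ p.1) ∧ ∀ p ∈ S, ∀ q ∈ S, p ≠ q → o p q z ≠ 0}

theorem dense_Gen (S : Finset P) : Dense (Gen S) := by
  have h1 : Dense (⋂ p ∈ (S : Set P), {z : P | z.1 ≠ p.1}) := by
    apply dense_biInter_of_isOpen
    · intro p _; exact isOpen_fst_ne p.1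
    · exact S.countable_toSet
    · intro p _; exact dense_fst_ne p.1
  have h1o : IsOpen (⋂ p ∈ (S : Set P), {z : P | z.1 ≠ p.1}) :=
    S.finite_toSet.isOpen_biInter (fun p _ => isOpen_fst_ne p.1)
  have h2 : Dense (⋂ pq ∈ {pq : P × P | pq ∈ (S ×ˢ S : Finset (P × P)) ∧ pq.1 ≠ pq.2},
      {z : P | o pq.1 pq.2 z ≠ 0}) := by
    apply dense_biInter_of_isOpen
    · intro pq _; exact isOpen_o_ne pq.1 pq.2
    · exact ((S ×ˢ S).countable_toSet).mono (fun x hx => hx.1)
    · intro pq hpq; exact dense_o_ne hpq.2
  have h3 := h2.inter_of_isOpen_right h1 h1o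
  apply h3.mono
  intro z hz
  obtain ⟨hz1, hz2⟩ := hz
  simp only [Set.mem_iInter, Set.mem_ofPred_eq] at hz1 hz2
  refine ⟨fun p hp => hz2 p hp, fun p hp q hq hpq => ?_⟩
  exact hz1 (p, q) ⟨Finset.mem_product.2 ⟨hp, hq⟩, hpq⟩

end Pool.Agent.Helper111_Chain
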