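import Pool.Agent.Helper111_Chain.Pocket

set_option autoImplicit false

/-!
The peeling process: a strip of triangles between two point sets separated from each other.
-/

namespace Pool.Agent.Helper111_Chain

/-- First point in counterclockwise order around `z`, all points being to the left of `z → u`. -/
theorem exists_first (z u : P) (X : Finset P) (hX : X.Nonempty) (h : ∀ x ∈ X, 0 < o z u x) :
    ∃ x₀ ∈ X, ∀ x ∈ X, 0 ≤ o z x₀ x := by
  obtain ⟨x₀, hx₀, hmax⟩ := X.exists_max_image
    (fun x => ((u.1 - z.1) * (x.1 - z.1) + (u.2 - z.2) * (x.2 - z.2)) / o z u x) hX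
  refine ⟨x₀, hx₀, fun x hx => ?_⟩
  have h1 := hmax x hx
  have hp := h x hx
  have hp0 := h x₀ hx₀
  rw [div_le_div_iff₀ hp hp0] at h1
  have hzu : z ≠ u := by rintro rfl; rw [o_self12] at hp; exact lt_irrefl _ hp
  have hsq := sq_pos_of_ne hzu
  have key : o z x₀ x * ((u.1 - z.1) ^ 2 + (u.2 - z.2) ^ 2) =
      ((u.1 - z.1) * (x₀.1 - z.1) + (u.2 - z.2) * (x₀.2 - z.2)) * o z u x -
      ((u.1 - z.1) * (x.1 - z.1) + (u.2 - z.2) * (x.2 - z.2)) * o z u x₀ := by
    unfold o; ring
  by_contra hc
  push Not at hc
  nlinarith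

/-- Last point in counterclockwise order around `z`, all points being to the right of `z → u`. -/
theorem exists_last (z u : P) (X : Finset P) (hX : X.Nonempty) (h : ∀ x ∈ X, 0 < o z x u) :
    ∃ x₀ ∈ X, ∀ x ∈ X, 0 ≤ o z x x₀ := by
  obtain ⟨x₀, hx₀, hmax⟩ := X.exists_max_image
    (fun x => ((u.1 - z.1) * (x.1 - z.1) + (u.2 - z.2) * (x.2 - z.2)) / o z x u) hX
  refine ⟨x₀, hx₀, fun x hx => ?_⟩
  have h1 := hmax x hx
  have hp := h x hx
  have hp0 := h x₀ hx₀
  rw [div_le_div_iff₀ hp hp0] at h1
  have hzu : z ≠ u := by rintro rfl; rw [o_self13] at hp; exact lt_irrefl _ hp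
  have hsq := sq_pos_of_ne hzu
  have key : o z x x₀ * ((u.1 - z.1) ^ 2 + (u.2 - z.2) ^ 2) =
      ((u.1 - z.1) * (x₀.1 - z.1) + (u.2 - z.2) * (x₀.2 - z.2)) * o z x u -
      ((u.1 - z.1) * (x.1 - z.1) + (u.2 - z.2) * (x.2 - z.2)) * o z x₀ u := by
    unfold o; ring
  by_contra hc
  push Not at hc
  nlinarith

/-- The bitangent lemma: two blocked advances contradict the separation from `b`. -/
theorem bitangent {b l r x y l' r' : P}
    (hl : 0 < o b l r) (hly : 0 < o b l y) (hxr : 0 < o b x r) (hxy : 0 < o b x y)
    (hx : 0 < o l r x) (hy : 0 < o l r y) (hl' : 0 < o l r l') (hr' : 0 < o l r r')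
    (h1 : o l' r y < 0) (h2 : 0 ≤ o l' r x) (h3 : o l r' x < 0) (h4 : 0 ≤ o l r' y) : False := by
  -- `C = o l x y > 0`
  have hC : 0 < o l x y := by
    have hgp := o_gp l r r' x y
    -- o l r r' * o l x y = o l r x * o l r' y - o l r y * o l r' x
    have : 0 < o l r r' * o l x y := by
      rw [hgp]; nlinarith [mul_nonneg hx.le h4, mul_pos hy (neg_pos.2 h3)]
    exact (mul_pos_iff_of_pos_left hr').1 this
  have hD : 0 < o r x y := by
    have hgp := o_gp r l l' x y
    -- o r l l' * o r x y = o r l x * o r l' y - o r l y * o r l' x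
    have e1 : o r l l' = - o l r l' := o_swap12 _ _ _
    have e2 : o r l x = - o l r x := o_swap12 _ _ _
    have e3 : o r l y = - o l r y := o_swap12 _ _ _
    have e4 : o r l' y = - o l' r y := o_swap12 _ _ _
    have e5 : o r l' x = - o l' r x := o_swap12 _ _ _
    rw [e1, e2, e3, e4, e5] at hgp
    have : 0 < o l r l' * o r x y := by
      nlinarith [mul_nonneg hy.le h2, mul_pos hx (neg_pos.2 h1)]
    exact (mul_pos_iff_of_pos_left hl').1 this
  have key : o r x y * o l x y * o b l r + o r x y * o l r x * o b l y +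
      o l r y * o l x y * o b x r + o l r y * o l r x * o b x y = 0 := by
    unfold o; ring
  have p1 := mul_pos (mul_pos hD hC) hl
  have p2 := mul_pos (mul_pos hD hx) hly
  have p3 := mul_pos (mul_pos hy hC) hxr
  have p4 := mul_pos (mul_pos hy hx) hxy
  linarith

/-- Reflection in the vertical axis. -/
def rf (p : P) : P := (-p.1, p.2)

theorem o_rf (p q r : P) : o (rf p) (rf q) (rf r) = - o p q r := by
  unfold o rf; ring

theorem peel (b : P × P) : ∀ (n : ℕ) (L1 R1 : List P) (L' R' : Finset P) (l r : P × P),
    n = L'.card + R'.card → L1.length = L'.card → R1.length = R'.card →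
    (l.1 :: L1).Pairwise (fun u v => ∀ p ∈ r.1 :: R1, 0 < o u p v) →
    (r.1 :: R1).Pairwise (fun u v => ∀ p ∈ l.1 :: L1, 0 < o p u v) →
    (∀ u ∈ l.1 :: L1, ∀ v ∈ r.1 :: R1, 0 < o u v b.1) →
    (∀ p ∈ insert l.2 (insert r.2 (L' ∪ R')), ∀ q ∈ insert l.2 (insert r.2 (L' ∪ R')),
      ∀ s ∈ insert l.2 (insert r.2 (L' ∪ R')), p ≠ q → p ≠ s → q ≠ s → o p q s ≠ 0) →
    (∀ x ∈ insert l.2 L', ∀ y ∈ insert r.2 R', 0 < o b.2 x y) →
    (∀ x ∈ L' ∪ R', 0 < o l.2 r.2 x) →
    ∃ (ZL ZR : List (P × P)) (F : List ((P × P) × (P × P) × (P × P))),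
      ZL.map Prod.fst = L1 ∧ ZR.map Prod.fst = R1 ∧
      (ZL.map Prod.snd).Nodup ∧ (∀ p, p ∈ ZL.map Prod.snd ↔ p ∈ L') ∧
      (ZR.map Prod.snd).Nodup ∧ (∀ p, p ∈ ZR.map Prod.snd ↔ p ∈ R') ∧
      Sep Prod.snd b (l :: ZL) ∧ Sep (fun i => rf i.2) b (r :: ZR) ∧
      (∀ f ∈ F, Pos2 Prod.fst Prod.snd f) ∧
      (∀ f ∈ F, f.1 ∈ b :: ((l :: ZL) ++ (r :: ZR)) ∧ f.2.1 ∈ b :: ((l :: ZL) ++ (r :: ZR)) ∧
        f.2.2 ∈ b :: ((l :: ZL) ++ (r :: ZR))) ∧
      (∀ i ∈ b :: ((l :: ZL) ++ (r :: ZR)), ∃ f ∈ F, i = f.1 ∨ i = f.2.1 ∨ i = f.2.2) ∧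
      ∀ w : P × P → P × P → ℝ, (∀ u v, w v u = - w u v) →
        bds w F = w l r + path w (r :: (ZR ++ [b])) - path w (l :: (ZL ++ [b])) := by
  classical
  intro n
  induction n with
  | zero =>
    intro L1 R1 L' R' l r hn hL hR hQ1 hQ2 hb1 hgp hsep habove
    have hL0 : L'.card = 0 := by omega
    have hR0 : R'.card = 0 := by omega
    have hL' : L' = ∅ := Finset.card_eq_zero.1 hL0
    have hR' : R' = ∅ := Finset.card_eq_zero.1 hR0
    have hL1 : L1 = [] := List.length_eq_zero_iff.1 (by omega)
    have hR1 : R1 = [] := List.length_eq_zero_iff.1 (by omega)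
    subst hL' hR' hL1 hR1
    refine ⟨[], [], [(l, r, b)], rfl, rfl, by simp, by simp, by simp, by simp, trivial, trivial,
      ?_, ?_, ?_, ?_⟩
    · intro f hf
      rw [List.mem_singleton.1 hf]
      refine ⟨hb1 _ (by simp) _ (by simp), ?_⟩
      have := hsep l.2 (by simp) r.2 (by simp)
      rw [← o_cyc] at this
      exact this
    · intro f hf
      rw [List.mem_singleton.1 hf]
      simp
    · intro i hi
      refine ⟨(l, r, b), by simp, ?_⟩
      simp only [List.cons_append, List.nil_append, List.mem_cons, List.not_mem_nil, or_false] at hi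
      rcases hi with rfl | rfl | rfl <;> simp
    · intro w hw
      simp only [bds_cons, bds_nil, List.nil_append, path_cons, path_one]
      rw [hw l b]
      ring
  | succ n ih =>
    intro L1 R1 L' R' l r hn hL hR hQ1 hQ2 hb1 hgp hsep habove
    have hlr : l.2 ≠ r.2 := by
      intro h
      have := hsep l.2 (by simp) r.2 (by simp)
      rw [h, o_self23] at this
      exact lt_irrefl _ this
    have hxl : ∀ x ∈ L' ∪ R', x ≠ l.2 := by
      intro x hx h
      have := habove x hx
      rw [h, o_self13] at this
      exact lt_irrefl _ this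
    have hxr : ∀ x ∈ L' ∪ R', x ≠ r.2 := by
      intro x hx h
      have := habove x hx
      rw [h, o_self23] at this
      exact lt_irrefl _ this
    have hxy : ∀ x ∈ L', ∀ y ∈ R', x ≠ y := by
      intro x hx y hy h
      have := hsep x (by simp [hx]) y (by simp [hy])
      rw [h, o_self23] at this
      exact lt_irrefl _ this
    -- the left step
    have left : ∀ l' ∈ L', (∀ x ∈ L', 0 ≤ o l' r.2 x) → (∀ y ∈ R', 0 ≤ o l' r.2 y) →
        ∃ (ZL ZR : List (P × P)) (F : List ((P × P) × (P × P) × (P × P))),
        ZL.map Prod.fst = L1 ∧ ZR.map Prod.fst = R1 ∧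
        (ZL.map Prod.snd).Nodup ∧ (∀ p, p ∈ ZL.map Prod.snd ↔ p ∈ L') ∧
        (ZR.map Prod.snd).Nodup ∧ (∀ p, p ∈ ZR.map Prod.snd ↔ p ∈ R') ∧
        Sep Prod.snd b (l :: ZL) ∧ Sep (fun i => rf i.2) b (r :: ZR) ∧
        (∀ f ∈ F, Pos2 Prod.fst Prod.snd f) ∧
        (∀ f ∈ F, f.1 ∈ b :: ((l :: ZL) ++ (r :: ZR)) ∧ f.2.1 ∈ b :: ((l :: ZL) ++ (r :: ZR)) ∧
          f.2.2 ∈ b :: ((l :: ZL) ++ (r :: ZR))) ∧
        (∀ i ∈ b :: ((l :: ZL) ++ (r :: ZR)), ∃ f ∈ F, i = f.1 ∨ i = f.2.1 ∨ i = f.2.2) ∧
        ∀ w : P × P → P × P → ℝ, (∀ u v, w v u = - w u v) →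
          bds w F = w l r + path w (r :: (ZR ++ [b])) - path w (l :: (ZL ++ [b])) := by
      intro l' hl' hx hy
      have hl'U : l' ∈ L' ∪ R' := Finset.mem_union_left _ hl'
      obtain ⟨a1, L1t, rfl⟩ : ∃ a1 L1t, L1 = a1 :: L1t := by
        cases L1 with
        | nil =>
          have : 0 < L'.card := Finset.card_pos.2 ⟨l', hl'⟩
          rw [List.length_nil] at hL
          omega
        | cons a t => exact ⟨a, t, rfl⟩
      have hcard : (L'.erase l').card + 1 = L'.card := Finset.card_erase_add_one hl'
      have hstrict : ∀ x ∈ L'.erase l' ∪ R', 0 < o l' r.2 x := by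
        intro x hx'
        have hxU : x ∈ L' ∪ R' := by
          rcases Finset.mem_union.1 hx' with h | h
          · exact Finset.mem_union_left _ (Finset.mem_of_mem_erase h)
          · exact Finset.mem_union_right _ h
        have hxl' : x ≠ l' := by
          rcases Finset.mem_union.1 hx' with h | h
          · exact Finset.ne_of_mem_erase h
          · exact fun e => hxy l' hl' x h e.symm
        have hge : 0 ≤ o l' r.2 x := by
          rcases Finset.mem_union.1 hx' with h | h
          · exact hx x (Finset.mem_of_mem_erase h)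
          · exact hy x h
        refine lt_of_le_of_ne hge (Ne.symm ?_)
        apply hgp l' (by simp [hl']) r.2 (by simp) x _ (hxr l' hl'U) (Ne.symm hxl')
          (Ne.symm (hxr x hxU))
        rcases Finset.mem_union.1 hxU with h | h <;> simp [h]
      obtain ⟨ZL, ZR, F, h1, h2, h3, h4, h5, h6, h7, h8, h9, h10, h11, h12⟩ :=
        ih L1t R1 (L'.erase l') R' (a1, l') r (by omega)
          (by rw [List.length_cons] at hL; omega) hR
          ((List.pairwise_cons.1 hQ1).2)
          (hQ2.imp (fun h p hp => h p (List.mem_cons_of_mem _ hp)))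
          (fun u hu => hb1 u (List.mem_cons_of_mem _ hu))
          (by
            intro p hp q hq s hs
            apply hgp
            · simp only [Finset.mem_insert, Finset.mem_union, Finset.mem_erase] at hp ⊢
              rcases hp with rfl | rfl | ⟨_, h⟩ | h
              · simp [hl']
              · simp
              · simp [h]
              · simp [h]
            · simp only [Finset.mem_insert, Finset.mem_union, Finset.mem_erase] at hq ⊢
              rcases hq with rfl | rfl | ⟨_, h⟩ | h
              · simp [hl']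
              · simp
              · simp [h]
              · simp [h]
            · simp only [Finset.mem_insert, Finset.mem_union, Finset.mem_erase] at hs ⊢
              rcases hs with rfl | rfl | ⟨_, h⟩ | h
              · simp [hl']
              · simp
              · simp [h]
              · simp [h])
          (by
            intro x hx' y hy'
            apply hsep x _ y hy'
            simp only [Finset.mem_insert, Finset.mem_erase] at hx' ⊢
            rcases hx' with rfl | ⟨_, h⟩
            · simp [hl']
            · simp [h])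
          hstrict
      refine ⟨(a1, l') :: ZL, ZR, (l, r, (a1, l')) :: F, by simp [h1], h2, ?_, ?_, h5, h6, ?_, h8,
        ?_, ?_, ?_, ?_⟩
      · rw [List.map_cons, List.nodup_cons]
        refine ⟨fun h => ?_, h3⟩
        exact (Finset.ne_of_mem_erase ((h4 l').1 h)) rfl
      · intro p
        rw [List.map_cons, List.mem_cons, h4 p, Finset.mem_erase]
        constructor
        · rintro (rfl | ⟨_, h⟩)
          · exact hl'
          · exact h
        · intro h
          by_cases e : p = l'
          · exact Or.inl e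
          · exact Or.inr ⟨e, h⟩
      · refine ⟨⟨r.2, ?_, ?_, ?_⟩, h7⟩
        · show o l' r.2 l.2 < 0
          rw [o_swap13]
          have := habove l' hl'U
          linarith
        · show 0 < o l' r.2 b.2
          rw [o_cyc]
          rw [o_cyc] 
          rw [o_cyc]
          have := hsep l' (by simp [hl']) r.2 (by simp)
          rw [← o_cyc] at this
          exact this
        · intro w hw
          apply hstrict
          apply Finset.mem_union_left
          exact (h4 w.2).1 (List.mem_map.2 ⟨w, hw, rfl⟩)
      · intro f hf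
        rcases List.mem_cons.1 hf with rfl | hf
        · refine ⟨?_, habove l' hl'U⟩
          exact (List.pairwise_cons.1 hQ1).1 a1 (by simp) r.1 (by simp)
        · exact h9 f hf
      · intro f hf
        rcases List.mem_cons.1 hf with rfl | hf
        · simp
        · obtain ⟨m1, m2, m3⟩ := h10 f hf
          have sub : ∀ i, i ∈ b :: (((a1, l') :: ZL) ++ (r :: ZR)) →
              i ∈ b :: ((l :: (a1, l') :: ZL) ++ (r :: ZR)) := by
            intro i hi
            rcases List.mem_cons.1 hi with rfl | hi
            · simp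
            · exact List.mem_cons_of_mem _ (List.mem_cons_of_mem _ hi)
          exact ⟨sub _ m1, sub _ m2, sub _ m3⟩
      · intro i hi
        rcases List.mem_cons.1 hi with rfl | hi
        · obtain ⟨f, hf, h⟩ := h11 i (by simp)
          exact ⟨f, List.mem_cons_of_mem _ hf, h⟩
        · rcases List.mem_cons.1 hi with rfl | hi
          · exact ⟨(i, r, (a1, l')), by simp, Or.inl rfl⟩
          · obtain ⟨f, hf, h⟩ := h11 i (List.mem_cons_of_mem _ hi)
            exact ⟨f, List.mem_cons_of_mem _ hf, h⟩
      · intro w hw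
        rw [bds_cons, h12 w hw]
        simp only [List.cons_append, path_cons]
        rw [hw l (a1, l'), hw r (a1, l')]
        ring
    have right : ∀ r' ∈ R', (∀ x ∈ L', 0 ≤ o l.2 r' x) → (∀ y ∈ R', 0 ≤ o l.2 r' y) →
        ∃ (ZL ZR : List (P × P)) (F : List ((P × P) × (P × P) × (P × P))),
        ZL.map Prod.fst = L1 ∧ ZR.map Prod.fst = R1 ∧
        (ZL.map Prod.snd).Nodup ∧ (∀ p, p ∈ ZL.map Prod.snd ↔ p ∈ L') ∧
        (ZR.map Prod.snd).Nodup ∧ (∀ p, p ∈ ZR.map Prod.snd ↔ p ∈ R') ∧
        Sep Prod.snd b (l :: ZL) ∧ Sep (fun i => rf i.2) b (r :: ZR) ∧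
        (∀ f ∈ F, Pos2 Prod.fst Prod.snd f) ∧
        (∀ f ∈ F, f.1 ∈ b :: ((l :: ZL) ++ (r :: ZR)) ∧ f.2.1 ∈ b :: ((l :: ZL) ++ (r :: ZR)) ∧
          f.2.2 ∈ b :: ((l :: ZL) ++ (r :: ZR))) ∧
        (∀ i ∈ b :: ((l :: ZL) ++ (r :: ZR)), ∃ f ∈ F, i = f.1 ∨ i = f.2.1 ∨ i = f.2.2) ∧
        ∀ w : P × P → P × P → ℝ, (∀ u v, w v u = - w u v) →
          bds w F = w l r + path w (r :: (ZR ++ [b])) - path w (l :: (ZL ++ [b])) := by
      intro r' hr' hx hy
      have hr'U : r' ∈ L' ∪ R' := Finset.mem_union_right _ hr'
      obtain ⟨c1, R1t, rfl⟩ : ∃ c1 R1t, R1 = c1 :: R1t := by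
        cases R1 with
        | nil =>
          have : 0 < R'.card := Finset.card_pos.2 ⟨r', hr'⟩
          rw [List.length_nil] at hR
          omega
        | cons a t => exact ⟨a, t, rfl⟩
      have hcard : (R'.erase r').card + 1 = R'.card := Finset.card_erase_add_one hr'
      have hstrict : ∀ x ∈ L' ∪ R'.erase r', 0 < o l.2 r' x := by
        intro x hx'
        have hxU : x ∈ L' ∪ R' := by
          rcases Finset.mem_union.1 hx' with h | h
          · exact Finset.mem_union_left _ h
          · exact Finset.mem_union_right _ (Finset.mem_of_mem_erase h)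
        have hxr' : x ≠ r' := by
          rcases Finset.mem_union.1 hx' with h | h
          · exact hxy x h r' hr'
          · exact Finset.ne_of_mem_erase h
        have hge : 0 ≤ o l.2 r' x := by
          rcases Finset.mem_union.1 hx' with h | h
          · exact hx x h
          · exact hy x (Finset.mem_of_mem_erase h)
        refine lt_of_le_of_ne hge (Ne.symm ?_)
        apply hgp l.2 (by simp) r' (by simp [hr']) x _ (Ne.symm (hxl r' hr'U))
          (Ne.symm (hxl x hxU)) (Ne.symm hxr')
        rcases Finset.mem_union.1 hxU with h | h <;> simp [h]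
      obtain ⟨ZL, ZR, F, h1, h2, h3, h4, h5, h6, h7, h8, h9, h10, h11, h12⟩ :=
        ih L1 R1t L' (R'.erase r') l (c1, r') (by omega) hL
          (by rw [List.length_cons] at hR; omega)
          (hQ1.imp (fun h p hp => h p (List.mem_cons_of_mem _ hp)))
          ((List.pairwise_cons.1 hQ2).2)
          (fun u hu v hv => hb1 u hu v (List.mem_cons_of_mem _ hv))
          (by
            intro p hp q hq s hs
            apply hgp
            · simp only [Finset.mem_insert, Finset.mem_union, Finset.mem_erase] at hp ⊢
              rcases hp with rfl | rfl | h | ⟨_, h⟩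
              · simp
              · simp [hr']
              · simp [h]
              · simp [h]
            · simp only [Finset.mem_insert, Finset.mem_union, Finset.mem_erase] at hq ⊢
              rcases hq with rfl | rfl | h | ⟨_, h⟩
              · simp
              · simp [hr']
              · simp [h]
              · simp [h]
            · simp only [Finset.mem_insert, Finset.mem_union, Finset.mem_erase] at hs ⊢
              rcases hs with rfl | rfl | h | ⟨_, h⟩
              · simp
              · simp [hr']
              · simp [h]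
              · simp [h])
          (by
            intro x hx' y hy'
            apply hsep x hx' y _
            simp only [Finset.mem_insert, Finset.mem_erase] at hy' ⊢
            rcases hy' with rfl | ⟨_, h⟩
            · simp [hr']
            · simp [h])
          hstrict
      refine ⟨ZL, (c1, r') :: ZR, (l, r, (c1, r')) :: F, h1, by simp [h2], h3, h4, ?_, ?_, h7, ?_,
        ?_, ?_, ?_, ?_⟩
      · rw [List.map_cons, List.nodup_cons]
        refine ⟨fun h => ?_, h5⟩
        exact (Finset.ne_of_mem_erase ((h6 r').1 h)) rfl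
      · intro p
        rw [List.map_cons, List.mem_cons, h6 p, Finset.mem_erase]
        constructor
        · rintro (rfl | ⟨_, h⟩)
          · exact hr'
          · exact h
        · intro h
          by_cases e : p = r'
          · exact Or.inl e
          · exact Or.inr ⟨e, h⟩
      · refine ⟨⟨rf l.2, ?_, ?_, ?_⟩, h8⟩
        · show o (rf r') (rf l.2) (rf r.2) < 0
          rw [o_rf, o_swap12, o_swap23]
          have := habove r' hr'U
          linarith
        · show 0 < o (rf r') (rf l.2) (rf b.2)
          rw [o_rf, o_swap12]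
          have := hsep l.2 (by simp) r' (by simp [hr'])
          rw [← o_cyc] at this
          linarith
        · intro w hw
          show 0 < o (rf r') (rf l.2) (rf w.2)
          rw [o_rf, o_swap12]
          have := hstrict w.2 (Finset.mem_union_right _ ((h6 w.2).1 (List.mem_map.2 ⟨w, hw, rfl⟩)))
          linarith
      · intro f hf
        rcases List.mem_cons.1 hf with rfl | hf
        · refine ⟨?_, habove r' hr'U⟩
          exact (List.pairwise_cons.1 hQ2).1 c1 (by simp) l.1 (by simp)
        · exact h9 f hf
      · intro f hf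
        rcases List.mem_cons.1 hf with rfl | hf
        · simp
        · obtain ⟨m1, m2, m3⟩ := h10 f hf
          have sub : ∀ i, i ∈ b :: ((l :: ZL) ++ ((c1, r') :: ZR)) →
              i ∈ b :: ((l :: ZL) ++ (r :: (c1, r') :: ZR)) := by
            intro i hi
            simp only [List.mem_cons, List.mem_append] at hi ⊢
            tauto
          exact ⟨sub _ m1, sub _ m2, sub _ m3⟩
      · intro i hi
        by_cases e : i = r
        · exact ⟨(l, r, (c1, r')), by simp, Or.inr (Or.inl e)⟩
        · obtain ⟨f, hf, h⟩ := h11 i (by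
            simp only [List.mem_cons, List.mem_append] at hi ⊢
            tauto)
          exact ⟨f, List.mem_cons_of_mem _ hf, h⟩
      · intro w hw
        rw [bds_cons, h12 w hw]
        simp only [List.cons_append, path_cons]
        rw [hw l (c1, r')]
        ring
    by_cases hLn : L'.Nonempty
    · obtain ⟨l', hl', hlast⟩ := exists_last r.2 l.2 L' hLn (by
        intro x hx
        have := habove x (Finset.mem_union_left _ hx)
        rw [o_cyc l.2 r.2 x]
        exact this)
      have hlast' : ∀ x ∈ L', 0 ≤ o l' r.2 x := by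
        intro x hx
        have := hlast x hx
        rw [o_cyc l' r.2 x] at this
        exact this
      by_cases hok : ∀ y ∈ R', 0 ≤ o l' r.2 y
      · exact left l' hl' hlast' hok
      · push Not at hok
        obtain ⟨y, hy, hy0⟩ := hok
        obtain ⟨r', hr', hfirst⟩ := exists_first l.2 r.2 R' ⟨y, hy⟩
          (fun x hx => habove x (Finset.mem_union_right _ hx))
        apply right r' hr' _ hfirst
        intro x hx
        by_contra hc
        push Not at hc
        exact bitangent (b := b.2) (l := l.2) (r := r.2) (x := x) (y := y) (l' := l') (r' := r')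
          (hsep _ (by simp) _ (by simp)) (hsep _ (by simp) _ (by simp [hy]))
          (hsep _ (by simp [hx]) _ (by simp)) (hsep _ (by simp [hx]) _ (by simp [hy]))
          (habove x (Finset.mem_union_left _ hx)) (habove y (Finset.mem_union_right _ hy))
          (habove l' (Finset.mem_union_left _ hl')) (habove r' (Finset.mem_union_right _ hr'))
          hy0 (hlast' x hx) hc (hfirst y hy)
    · have hL0 : L' = ∅ := Finset.not_nonempty_iff_eq_empty.1 hLn
      have hRn : R'.Nonempty := by
        rw [← Finset.card_pos]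
        rw [hL0] at hn
        simp only [Finset.card_empty] at hn
        omega
      obtain ⟨r', hr', hfirst⟩ := exists_first l.2 r.2 R' hRn
        (fun x hx => habove x (Finset.mem_union_right _ hx))
      apply right r' hr' _ hfirst
      intro x hx
      rw [hL0] at hx
      exact absurd hx (by simp)

end Pool.Agent.Helper111_Chain
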