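import Pool.Agent.Helper111_Chain.Master

set_option autoImplicit false

/-!
Triangulating a pocket: the region between a path and its hull edge.
-/

namespace Pool.Agent.Helper111_Chain

variable {ι : Type*}

/-- Sum of an edge function along a path. -/
def path (w : ι → ι → ℝ) : List ι → ℝ
  | [] => 0
  | [_] => 0
  | (u :: v :: l) => w u v + path w (v :: l)

@[simp] theorem path_nil (w : ι → ι → ℝ) : path w [] = 0 := rfl
@[simp] theorem path_one (w : ι → ι → ℝ) (u : ι) : path w [u] = 0 := rfl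
@[simp] theorem path_cons (w : ι → ι → ℝ) (u v : ι) (l : List ι) :
    path w (u :: v :: l) = w u v + path w (v :: l) := rfl

/-- Boundary sum of a list of faces. -/
def bds (w : ι → ι → ℝ) (F : List (ι × ι × ι)) : ℝ :=
  (F.map (fun f => w f.1 f.2.1 + w f.2.1 f.2.2 + w f.2.2 f.1)).sum

@[simp] theorem bds_nil (w : ι → ι → ℝ) : bds w [] = 0 := rfl

@[simp] theorem bds_cons (w : ι → ι → ℝ) (f : ι × ι × ι) (F : List (ι × ι × ι)) :
    bds w (f :: F) = w f.1 f.2.1 + w f.2.1 f.2.2 + w f.2.2 f.1 + bds w F := by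
  simp [bds]

theorem bds_append (w : ι → ι → ℝ) (F G : List (ι × ι × ι)) :
    bds w (F ++ G) = bds w F + bds w G := by
  simp [bds]

/-- Positivity of a face for two labellings. -/
def Pos2 (x y : ι → P) (f : ι × ι × ι) : Prop :=
  0 < o (x f.1) (x f.2.1) (x f.2.2) ∧ 0 < o (y f.1) (y f.2.1) (y f.2.2)

/-- `R` holds for all increasing triples of a list. -/
def Trip (R : ι → ι → ι → Prop) : List ι → Prop
  | [] => True
  | (u :: l) => l.Pairwise (R u) ∧ Trip R l

/-- Convex chain towards `b`. -/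
def CH (y : ι → P) (b : ι) : List ι → Prop
  | [] => False
  | [u] => u = b
  | [_, v] => v = b
  | (u :: v :: w :: l) => o (y u) (y v) (y w) < 0 ∧ o (y u) (y v) (y b) < 0 ∧ CH y b (v :: w :: l)

theorem CH.tail {y : ι → P} {b u v : ι} {l : List ι} (h : CH y b (u :: v :: l)) :
    CH y b (v :: l) := by
  cases l with
  | nil => exact h
  | cons w l => exact h.2.2

/-- Members of the path separate their predecessor from everything later. -/
def Sep (y : ι → P) (b : ι) : List ι → Prop
  | [] => True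
  | [_] => True
  | (l :: l' :: Z) => (∃ r : P, o (y l') r (y l) < 0 ∧ 0 < o (y l') r (y b) ∧
      ∀ w ∈ Z, 0 < o (y l') r (y w)) ∧ Sep y b (l' :: Z)

theorem pop (x y : ι → P) (b l : ι) : ∀ (K : List ι) (g : ι) (A : P), CH y b (g :: K) →
    (∀ g₁ K', K = g₁ :: K' → 0 < o (y g) (y l) A ∧ 0 < o (y g) A (y b) ∧ 0 < o (y g) A (y g₁)) →
    (g :: K).Pairwise (fun u v => 0 < o (x l) (x u) (x v)) →
    (g :: K).Pairwise (fun u v => o (y l) (y u) (y v) ≠ 0) →
    ∃ (K2 : List ι) (F : List (ι × ι × ι)), K2.Sublist (g :: K) ∧ K2 ≠ [] ∧ CH y b (l :: K2) ∧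
      (∀ f ∈ F, Pos2 x y f) ∧
      (∀ f ∈ F, f.1 = l ∧ f.2.1 ∈ g :: K ∧ f.2.2 ∈ g :: K) ∧
      ∀ w : ι → ι → ℝ, (∀ u v, w v u = - w u v) →
        bds w F = w l g + path w (g :: K) - path w (l :: K2) := by
  intro K
  induction K with
  | nil =>
    intro g A hCH _ _ _
    have hgb : g = b := hCH
    refine ⟨[g], [], List.Sublist.refl _, by simp, ?_, by simp, by simp, ?_⟩
    · exact hgb
    · intro w _; simp
  | cons g₁ K' ih =>
    intro g A hCH hA hx hy
    obtain ⟨hA1, hA2, hA3⟩ := hA g₁ K' rfl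
    have hx' := List.pairwise_cons.1 hx
    have hy' := List.pairwise_cons.1 hy
    have hne : o (y l) (y g) (y g₁) ≠ 0 := hy'.1 g₁ (by simp)
    rcases lt_or_gt_of_ne hne with hneg | hpos
    · refine ⟨g :: g₁ :: K', [], List.Sublist.refl _, by simp, ?_, by simp, by simp, ?_⟩
      · refine ⟨hneg, ?_, hCH⟩
        -- Grassmann-Pluecker at the pivot `g`
        cases K' with
        | nil =>
          have : g₁ = b := hCH
          rw [← this]; exact hneg
        | cons g₂ K'' =>
          have hgp := o_gp (y g) A (y g₁) (y l) (y b)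
          have hB : o (y g) (y g₁) (y b) < 0 := hCH.2.1
          have e1 : o (y g) A (y l) = - o (y g) (y l) A := o_swap23 _ _ _
          have e2 : o (y g) (y g₁) (y l) = o (y l) (y g) (y g₁) := o_cyc _ _ _
          have e3 : o (y l) (y g) (y b) = - o (y g) (y l) (y b) := o_swap12 _ _ _
          rw [e1, e2] at hgp
          rw [e3]
          have h1 : 0 < o (y g) A (y g₁) * o (y g) (y l) (y b) := by
            rw [hgp]
            nlinarith [mul_pos hA1 (neg_pos.2 hB), mul_pos hA2 (neg_pos.2 hneg)]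
          have h2 : 0 < o (y g) (y l) (y b) := (mul_pos_iff_of_pos_left hA3).1 h1
          linarith
      · intro w _; simp
    · obtain ⟨K2, F, hs, hn, hc, hp, hm, hb⟩ := ih g₁ (y g) hCH.tail (by
          intro g₂ K'' hK
          subst hK
          refine ⟨?_, ?_, ?_⟩
          · rw [o_cyc']; exact hpos
          · have := hCH.2.1
            rw [o_swap12]; linarith
          · have := hCH.1
            rw [o_swap12]; linarith) hx'.2 hy'.2
      refine ⟨K2, (l, g, g₁) :: F, hs.trans (List.sublist_cons_self _ _), hn, hc, ?_, ?_, ?_⟩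
      · intro f hf
        rcases List.mem_cons.1 hf with rfl | hf
        · exact ⟨hx'.1 g₁ (by simp), hpos⟩
        · exact hp f hf
      · intro f hf
        rcases List.mem_cons.1 hf with rfl | hf
        · exact ⟨rfl, by simp, by simp⟩
        · obtain ⟨m1, m2, m3⟩ := hm f hf
          exact ⟨m1, List.mem_cons_of_mem _ m2, List.mem_cons_of_mem _ m3⟩
      · intro w hw
        rw [bds_cons, hb w hw]
        simp only [path_cons]
        rw [hw l g₁]
        ring

theorem pocket_aux (x y : ι → P) (b : ι) : ∀ (Z : List ι) (l : ι),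
    Trip (fun u v w => 0 < o (x u) (x v) (x w)) (l :: (Z ++ [b])) →
    Trip (fun u v w => o (y u) (y v) (y w) ≠ 0) (l :: (Z ++ [b])) →
    Sep y b (l :: Z) →
    ∃ (K : List ι) (F : List (ι × ι × ι)), K.Sublist (Z ++ [b]) ∧ K ≠ [] ∧ CH y b (l :: K) ∧
      (∀ f ∈ F, Pos2 x y f) ∧
      (∀ f ∈ F, f.1 ∈ l :: (Z ++ [b]) ∧ f.2.1 ∈ l :: (Z ++ [b]) ∧ f.2.2 ∈ l :: (Z ++ [b])) ∧
      ∀ w : ι → ι → ℝ, (∀ u v, w v u = - w u v) →
        bds w F = path w (l :: (Z ++ [b])) - path w (l :: K) := by
  intro Z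
  induction Z with
  | nil =>
    intro l _ _ _
    refine ⟨[b], [], List.Sublist.refl _, by simp, rfl, by simp, by simp, ?_⟩
    intro w _
    simp
  | cons l' Z ih =>
    intro l hx hy hsep
    obtain ⟨⟨r, hr1, hr2, hr3⟩, hsep'⟩ := hsep
    obtain ⟨K, F, hs, hn, hc, hp, hm, hb⟩ := ih l' hx.2 hy.2 hsep'
    have hsub : (l' :: K).Sublist (l' :: (Z ++ [b])) := hs.cons_cons l'
    obtain ⟨K2, F2, hs2, hn2, hc2, hp2, hm2, hb2⟩ := pop x y b l K l' r hc (by
      intro g₁ K' hK
      refine ⟨?_, hr2, ?_⟩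
      · rw [o_swap23]; linarith
      · have hg : g₁ ∈ Z ++ [b] := hs.subset (by rw [hK]; simp)
        rcases List.mem_append.1 hg with hg | hg
        · exact hr3 g₁ hg
        · rw [List.mem_singleton.1 hg]; exact hr2) (hx.1.sublist hsub) (hy.1.sublist hsub)
    refine ⟨K2, F2 ++ F, hs2.trans hsub, hn2, hc2, ?_, ?_, ?_⟩
    · intro f hf
      rcases List.mem_append.1 hf with hf | hf
      · exact hp2 f hf
      · exact hp f hf
    · intro f hf
      rcases List.mem_append.1 hf with hf | hf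
      · obtain ⟨m1, m2, m3⟩ := hm2 f hf
        exact ⟨by rw [m1]; simp, List.mem_cons_of_mem _ (hsub.subset m2),
          List.mem_cons_of_mem _ (hsub.subset m3)⟩
      · obtain ⟨m1, m2, m3⟩ := hm f hf
        exact ⟨List.mem_cons_of_mem _ m1, List.mem_cons_of_mem _ m2, List.mem_cons_of_mem _ m3⟩
    · intro w hw
      rw [bds_append, hb2 w hw, hb w hw]
      simp only [List.cons_append, path_cons]
      ring

/-- The full pocket: all path points lie on the left of the hull edge `b → l`. -/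
theorem pocket (x y : ι → P) (b : ι) (Z : List ι) (l : ι)
    (hx : Trip (fun u v w => 0 < o (x u) (x v) (x w)) (l :: (Z ++ [b])))
    (hy : Trip (fun u v w => o (y u) (y v) (y w) ≠ 0) (l :: (Z ++ [b])))
    (hsep : Sep y b (l :: Z)) (hull : ∀ v ∈ Z, 0 < o (y l) (y v) (y b)) :
    ∃ (F : List (ι × ι × ι)), (∀ f ∈ F, Pos2 x y f) ∧
      (∀ f ∈ F, f.1 ∈ l :: (Z ++ [b]) ∧ f.2.1 ∈ l :: (Z ++ [b]) ∧ f.2.2 ∈ l :: (Z ++ [b])) ∧
      ∀ w : ι → ι → ℝ, (∀ u v, w v u = - w u v) →
        bds w F = path w (l :: (Z ++ [b])) - w l b := by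
  obtain ⟨K, F, hs, hn, hc, hp, hm, hb⟩ := pocket_aux x y b Z l hx hy hsep
  refine ⟨F, hp, hm, ?_⟩
  have hK : K = [b] := by
    cases K with
    | nil => exact absurd rfl hn
    | cons v K' =>
      cases K' with
      | nil =>
        have : v = b := hc
        rw [this]
      | cons w K'' =>
        exfalso
        have h1 : o (y l) (y v) (y b) < 0 := hc.2.1
        have hv : v ∈ Z ++ [b] := hs.subset (by simp)
        rcases List.mem_append.1 hv with hv | hv
        · have := hull v hv; linarith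
        · rw [List.mem_singleton.1 hv, o_self23] at h1
          exact lt_irrefl _ h1
  intro w hw
  rw [hb w hw, hK]
  simp

end Pool.Agent.Helper111_Chain
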