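import Pool.Agent.Helper111_Chain.Hull

set_option autoImplicit false

/-!
Assembly of the two-chain theorem.
-/

namespace Pool.Agent.Helper111_Chain

theorem Trip_of_map {ι : Type*} {f : ι → P} {R : P → P → P → Prop} :
    ∀ {Z : List ι}, Trip R (Z.map f) → Trip (fun u v w => R (f u) (f v) (f w)) Z
  | [], _ => trivial
  | (u :: Z), h => by
    refine ⟨?_, Trip_of_map h.2⟩
    have := h.1
    rw [List.pairwise_map] at this
    exact this

theorem Trip_ofFn {R : P → P → P → Prop} : ∀ {n : ℕ} {f : Fin n → P},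
    (∀ i j k, i < j → j < k → R (f i) (f j) (f k)) → Trip R (List.ofFn f)
  | 0, f, _ => by rw [List.ofFn_zero]; trivial
  | n + 1, f, h => by
    rw [List.ofFn_succ]
    refine ⟨?_, Trip_ofFn (fun i j k hij hjk => h _ _ _ (Fin.succ_lt_succ_iff.2 hij)
      (Fin.succ_lt_succ_iff.2 hjk))⟩
    rw [List.pairwise_ofFn]
    intro i j hij
    exact h _ _ _ (Fin.succ_pos i) (Fin.succ_lt_succ_iff.2 hij)

theorem Trip_ne {S : Finset P}
    (hgp : ∀ p ∈ S, ∀ q ∈ S, ∀ r ∈ S, p ≠ q → p ≠ r → q ≠ r → o p q r ≠ 0) :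
    ∀ {Z : List P}, Z.Nodup → (∀ p ∈ Z, p ∈ S) → Trip (fun u v w => o u v w ≠ 0) Z
  | [], _, _ => trivial
  | (u :: Z), hn, hS => by
    rw [List.nodup_cons] at hn
    refine ⟨?_, Trip_ne hgp hn.2 (fun p hp => hS p (List.mem_cons_of_mem _ hp))⟩
    have h1 : Z.Pairwise (fun a b => a ≠ b) := hn.2
    have h2 := List.Pairwise.and_mem.1 h1
    refine h2.imp ?_
    rintro a b ⟨ha, hb, hab⟩
    apply hgp _ (hS u (by simp)) _ (hS a (List.mem_cons_of_mem _ ha)) _
      (hS b (List.mem_cons_of_mem _ hb)) _ _ hab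
    · rintro rfl; exact hn.1 ha
    · rintro rfl; exact hn.1 hb

theorem bijOn_list {ι : Type*} {Z : List ι} {f : ι → P} {S : Finset P} (hn : (Z.map f).Nodup)
    (hS : ∀ p, p ∈ Z.map f ↔ p ∈ S) : Set.BijOn f {i | i ∈ Z} (S : Set P) := by
  refine ⟨?_, ?_, ?_⟩
  · intro i hi
    exact (hS _).1 (List.mem_map.2 ⟨i, hi, rfl⟩)
  · intro i hi j hj hij
    exact List.inj_on_of_nodup_map hn hi hj hij
  · intro p hp
    obtain ⟨i, hi, rfl⟩ := List.mem_map.1 ((hS p).2 hp)
    exact ⟨i, hi, rfl⟩

/-- Swap the last two vertices of a face. -/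
def sw {ι : Type*} (f : ι × ι × ι) : ι × ι × ι := (f.1, f.2.2, f.2.1)

theorem bds_sw {ι : Type*} (w : ι → ι → ℝ) (hw : ∀ u v, w v u = - w u v)
    (F : List (ι × ι × ι)) : bds w (F.map sw) = - bds w F := by
  induction F with
  | nil => simp
  | cons f F ih =>
    rw [List.map_cons, bds_cons, bds_cons, ih]
    simp only [sw]
    rw [hw f.1 f.2.2, hw f.2.1 f.2.2, hw f.1 f.2.1]
    rw [hw f.2.2 f.1]
    have := hw f.1 f.2.2
    have h2 := hw f.2.2 f.1
    linarith

/-- The double chain with a triangular hull. -/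
structure DoubleChain (m₁ m₂ : ℕ) (l : Fin (m₁ + 2) → ℝ × ℝ) (r : Fin (m₂ + 2) → ℝ × ℝ) :
    Prop where
  apex : l (Fin.last _) = r (Fin.last _)
  left : ∀ i j k, i < j → j < k → 0 < o (l i) (l j) (l k)
  right : ∀ i j k, i < j → j < k → 0 < o (r k) (r j) (r i)
  mixL : ∀ i j, i < j → ∀ k, k ≠ Fin.last _ → 0 < o (l i) (r k) (l j)
  mixR : ∀ j k, j < k → ∀ i, i ≠ Fin.last _ → 0 < o (l i) (r j) (r k)

variable {m₁ m₂ : ℕ} {l : Fin (m₁ + 2) → ℝ × ℝ} {r : Fin (m₂ + 2) → ℝ × ℝ}

theorem DoubleChain.lll (h : DoubleChain m₁ m₂ l r) (i j k : Fin (m₁ + 2)) (hij : l i ≠ l j)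
    (hik : l i ≠ l k) (hjk : l j ≠ l k) : o (l i) (l j) (l k) ≠ 0 := by
  have n1 : i ≠ j := fun e => hij (by rw [e])
  have n2 : i ≠ k := fun e => hik (by rw [e])
  have n3 : j ≠ k := fun e => hjk (by rw [e])
  intro e
  rcases lt_or_gt_of_ne n1 with a | a <;> rcases lt_or_gt_of_ne n2 with b | b <;>
    rcases lt_or_gt_of_ne n3 with c | c
  · have := h.left i j k a c
    unfold o at *; linarith
  · have := h.left i k j b c
    unfold o at *; linarith
  · omega
  · have := h.left k i j b a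
    unfold o at *; linarith
  · have := h.left j i k a b
    unfold o at *; linarith
  · omega
  · have := h.left j k i c b
    unfold o at *; linarith
  · have := h.left k j i c a
    unfold o at *; linarith

theorem DoubleChain.rrr (h : DoubleChain m₁ m₂ l r) (i j k : Fin (m₂ + 2)) (hij : r i ≠ r j)
    (hik : r i ≠ r k) (hjk : r j ≠ r k) : o (r i) (r j) (r k) ≠ 0 := by
  have n1 : i ≠ j := fun e => hij (by rw [e])
  have n2 : i ≠ k := fun e => hik (by rw [e])
  have n3 : j ≠ k := fun e => hjk (by rw [e])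
  intro e
  rcases lt_or_gt_of_ne n1 with a | a <;> rcases lt_or_gt_of_ne n2 with b | b <;>
    rcases lt_or_gt_of_ne n3 with c | c
  · have := h.right i j k a c
    unfold o at *; linarith
  · have := h.right i k j b c
    unfold o at *; linarith
  · omega
  · have := h.right k i j b a
    unfold o at *; linarith
  · have := h.right j i k a b
    unfold o at *; linarith
  · omega
  · have := h.right j k i c b
    unfold o at *; linarith
  · have := h.right k j i c a
    unfold o at *; linarith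

theorem DoubleChain.llr (h : DoubleChain m₁ m₂ l r) (i j : Fin (m₁ + 2)) (k : Fin (m₂ + 2))
    (hij : l i ≠ l j) (hik : l i ≠ r k) (hjk : l j ≠ r k) : o (l i) (l j) (r k) ≠ 0 := by
  by_cases hk : k = Fin.last _
  · rw [hk, ← h.apex]
    rw [hk, ← h.apex] at hik hjk
    exact h.lll _ _ _ hij hik hjk
  · have n1 : i ≠ j := fun e => hij (by rw [e])
    intro e
    rcases lt_or_gt_of_ne n1 with a | a
    · have := h.mixL i j a k hk
      unfold o at *; linarith
    · have := h.mixL j i a k hk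
      unfold o at *; linarith

theorem DoubleChain.lrr (h : DoubleChain m₁ m₂ l r) (i : Fin (m₁ + 2)) (j k : Fin (m₂ + 2))
    (hij : l i ≠ r j) (hik : l i ≠ r k) (hjk : r j ≠ r k) : o (l i) (r j) (r k) ≠ 0 := by
  by_cases hi : i = Fin.last _
  · rw [hi, h.apex]
    rw [hi, h.apex] at hij hik
    exact h.rrr _ _ _ hij hik hjk
  · have n1 : j ≠ k := fun e => hjk (by rw [e])
    intro e
    rcases lt_or_gt_of_ne n1 with a | a
    · have := h.mixR j k a i hi
      unfold o at *; linarith
    · have := h.mixR k j a i hi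
      unfold o at *; linarith

/-- The point set of a double chain. -/
noncomputable def dcSet (l : Fin (m₁ + 2) → ℝ × ℝ) (r : Fin (m₂ + 2) → ℝ × ℝ) :
    Finset (ℝ × ℝ) := Finset.univ.image l ∪ Finset.univ.image r

theorem mem_dcSet {p : P} : p ∈ dcSet l r ↔ (∃ i, l i = p) ∨ ∃ i, r i = p := by
  unfold dcSet; simp

theorem DoubleChain.gp (h : DoubleChain m₁ m₂ l r) :
    ∀ p ∈ dcSet l r, ∀ q ∈ dcSet l r, ∀ s ∈ dcSet l r, p ≠ q → p ≠ s → q ≠ s → o p q s ≠ 0 := by
  intro p hp q hq s hs h1 h2 h3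
  rcases mem_dcSet.1 hp with ⟨i, rfl⟩ | ⟨i, rfl⟩ <;> rcases mem_dcSet.1 hq with ⟨j, rfl⟩ | ⟨j, rfl⟩ <;>
    rcases mem_dcSet.1 hs with ⟨k, rfl⟩ | ⟨k, rfl⟩
  · exact h.lll _ _ _ h1 h2 h3
  · exact h.llr _ _ _ h1 h2 h3
  · have := h.llr _ _ _ h2 h1 (Ne.symm h3)
    rw [o_swap23]; simpa using this
  · exact h.lrr _ _ _ h1 h2 h3
  · have := h.llr _ _ _ h3 (Ne.symm h1) (Ne.symm h2)
    rw [o_cyc] at this; exact this
  · have := h.lrr _ _ _ (Ne.symm h1) h3 h2
    rw [o_swap12]; simpa using this
  · have := h.lrr _ _ _ (Ne.symm h2) (Ne.symm h3) h1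
    rw [o_cyc'] at this; exact this
  · exact h.rrr _ _ _ h1 h2 h3

theorem DoubleChain.lne (h : DoubleChain m₁ m₂ l r) {i j : Fin (m₁ + 2)} (hij : i < j) :
    l i ≠ l j := by
  intro e
  have := h.mixL i j hij 0 (by
    intro e'; have := congrArg Fin.val e'; simp at this)
  rw [e, o_self13] at this
  exact lt_irrefl _ this

theorem DoubleChain.rne (h : DoubleChain m₁ m₂ l r) {i j : Fin (m₂ + 2)} (hij : i < j) :
    r i ≠ r j := by
  intro e
  have := h.mixR i j hij 0 (by
    intro e'; have := congrArg Fin.val e'; simp at this)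
  rw [e, o_self23] at this
  exact lt_irrefl _ this

theorem DoubleChain.lrne (h : DoubleChain m₁ m₂ l r) (i : Fin (m₁ + 2)) (j : Fin (m₂ + 2))
    (hi : i ≠ Fin.last _) : l i ≠ r j := by
  intro e
  by_cases hj : j = Fin.last _
  · rw [hj, ← h.apex] at e
    exact h.lne (lt_of_le_of_ne (Fin.le_last i) hi) e
  · have := h.mixR j (Fin.last _) (lt_of_le_of_ne (Fin.le_last j) hj) i hi
    rw [e, o_self12] at this
    exact lt_irrefl _ this

theorem DoubleChain.hull (h : DoubleChain m₁ m₂ l r) : 0 < o (l 0) (r 0) (l (Fin.last _)) :=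
  h.mixL 0 (Fin.last _) (Fin.last_pos) 0 (by
    intro e'; have := congrArg Fin.val e'; simp at this)

theorem zero_ne_last (m : ℕ) : (0 : Fin (m + 2)) ≠ Fin.last (m + 1) := by
  intro e'; have := congrArg Fin.val e'; simp at this

theorem DoubleChain.inside (h : DoubleChain m₁ m₂ l r) :
    ∀ p ∈ dcSet l r, p ∈ cls (l 0) (r 0) (l (Fin.last _)) := by
  intro p hp
  rcases mem_dcSet.1 hp with ⟨i, rfl⟩ | ⟨i, rfl⟩
  · by_cases h0 : i = 0
    · rw [h0]
      exact ⟨by rw [o_self13], by rw [o_cyc]; exact h.hull.le, by rw [o_self23]⟩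
    · have hi0 : 0 < i := Fin.pos_of_ne_zero h0
      by_cases hl : i = Fin.last _
      · rw [hl]
        exact ⟨h.hull.le, by rw [o_self23], by rw [o_self13]⟩
      · have hil : i < Fin.last _ := lt_of_le_of_ne (Fin.le_last i) hl
        refine ⟨(h.mixL 0 i hi0 0 (zero_ne_last _)).le, ?_, ?_⟩
        · have := h.mixR 0 (Fin.last _) Fin.last_pos i hl
          rw [← h.apex, ← o_cyc] at this
          exact this.le
        · have := h.left 0 i (Fin.last _) hi0 hil
          rw [← o_cyc'] at this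
          exact this.le
  · by_cases h0 : i = 0
    · rw [h0]
      exact ⟨by rw [o_self23], by rw [o_self13], by rw [o_cyc']; exact h.hull.le⟩
    · have hi0 : 0 < i := Fin.pos_of_ne_zero h0
      by_cases hl : i = Fin.last _
      · rw [hl, ← h.apex]
        exact ⟨h.hull.le, by rw [o_self23], by rw [o_self13]⟩
      · have hil : i < Fin.last _ := lt_of_le_of_ne (Fin.le_last i) hl
        refine ⟨(h.mixR 0 i hi0 0 (zero_ne_last _)).le, ?_, ?_⟩
        · have := h.right 0 i (Fin.last _) hi0 hil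
          rw [← h.apex] at this
          unfold o at *; linarith
        · have := h.mixL 0 (Fin.last _) Fin.last_pos i hl
          rw [← o_cyc'] at this
          exact this.le

theorem cov_of {ι : Type*} {Z : List ι} {F : List (ι × ι × ι)} {x : ι → P} {S : Finset P}
    {a c b : ι} (ha : a ∈ Z) (hc : c ∈ Z) (hb : b ∈ Z)
    (hbij : Set.BijOn x {i | i ∈ Z} (S : Set P))
    (gp : ∀ p ∈ S, ∀ q ∈ S, ∀ r ∈ S, p ≠ q → p ≠ r → q ≠ r → o p q r ≠ 0)
    (hull : 0 < o (x a) (x c) (x b)) (inside : ∀ p ∈ S, p ∈ cls (x a) (x c) (x b))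
    (mem : ∀ f ∈ F, f.1 ∈ Z ∧ f.2.1 ∈ Z ∧ f.2.2 ∈ Z)
    (pos : ∀ f ∈ F, 0 < o (x f.1) (x f.2.1) (x f.2.2))
    (used : ∀ i ∈ Z, ∃ f ∈ F, i = f.1 ∨ i = f.2.1 ∨ i = f.2.2)
    (bd : ∀ w : ι → ι → ℝ, (∀ u v, w v u = - w u v) → bds w F = w a c + w c b + w b a) :
    Cov S (F.map (mp x)) (x a) (x c) (x b) where
  hA := hbij.mapsTo ha
  hC := hbij.mapsTo hc
  hB := hbij.mapsTo hb
  gp := gp
  mem := by
    intro f hf
    obtain ⟨g, hg, rfl⟩ := List.mem_map.1 hf
    obtain ⟨m1, m2, m3⟩ := mem g hg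
    exact ⟨hbij.mapsTo m1, hbij.mapsTo m2, hbij.mapsTo m3⟩
  pos := by
    intro f hf
    obtain ⟨g, hg, rfl⟩ := List.mem_map.1 hf
    exact pos g hg
  bd := by
    intro w hw
    have := bd (fun i j => w (x i) (x j)) (fun i j => hw _ _)
    rw [← this]
    unfold bds
    rw [List.map_map]
    rfl
  hull := hull
  inside := inside
  used := by
    intro p hp
    obtain ⟨i, hi, rfl⟩ := hbij.surjOn hp
    obtain ⟨f, hf, h⟩ := used i hi
    refine ⟨mp x f, List.mem_map.2 ⟨f, hf, rfl⟩, ?_⟩
    rcases h with h | h | h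
    · exact Or.inl (by rw [h]; rfl)
    · exact Or.inr (Or.inl (by rw [h]; rfl))
    · exact Or.inr (Or.inr (by rw [h]; rfl))

theorem dc_compat (h : DoubleChain m₁ m₂ l r) (S₂ : Finset P) (hcard : S₂.card = m₁ + m₂ + 3)
    (hgp : ∀ a ∈ S₂, ∀ b ∈ S₂, ∀ c ∈ S₂, a ≠ b → a ≠ c → b ≠ c →
      ¬ Collinear ℝ ({a, b, c} : Set P))
    (h3 : (hv S₂).ncard = 3) : Compat (dcSet l r) S₂ := by
  classical
  obtain ⟨A, hA, C, hC, B, hB, hACB, hin⟩ := hull_triangle S₂ hgp h3
  have hgp2 : ∀ p ∈ S₂, ∀ q ∈ S₂, ∀ s ∈ S₂, p ≠ q → p ≠ s → q ≠ s → o p q s ≠ 0 :=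
    fun p hp q hq s hs n1 n2 n3 => o_ne_of_not_collinear (hgp p hp q hq s hs n1 n2 n3)
  obtain ⟨nAC, nCB, nBA⟩ := ne_of_pos hACB
  -- interior points
  set X : Finset P := ((S₂.erase A).erase C).erase B with hX
  have hXmem : ∀ x, x ∈ X ↔ x ≠ B ∧ x ≠ C ∧ x ≠ A ∧ x ∈ S₂ := by
    intro x; rw [hX]; simp only [Finset.mem_erase]
  have hXcard : X.card = m₁ + m₂ := by
    rw [hX, Finset.card_erase_of_mem, Finset.card_erase_of_mem, Finset.card_erase_of_mem hA, hcard]
    · omega
    · simp only [Finset.mem_erase]; exact ⟨Ne.symm nAC, hC⟩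
    · simp only [Finset.mem_erase]; exact ⟨Ne.symm nCB, nBA, hB⟩
  have hXin : ∀ x ∈ X, 0 < o A C x ∧ 0 < o C B x ∧ 0 < o B A x := by
    intro x hx
    obtain ⟨n1, n2, n3, hxS⟩ := (hXmem x).1 hx
    obtain ⟨i1, i2, i3⟩ := hin x hxS
    refine ⟨lt_of_le_of_ne i1 (Ne.symm ?_), lt_of_le_of_ne i2 (Ne.symm ?_),
      lt_of_le_of_ne i3 (Ne.symm ?_)⟩
    · exact hgp2 A hA C hC x hxS nAC (Ne.symm n3) (Ne.symm n2)
    · exact hgp2 C hC B hB x hxS nCB (Ne.symm n2) (Ne.symm n1)
    · exact hgp2 B hB A hA x hxS nBA (Ne.symm n1) (Ne.symm n3)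
  obtain ⟨L', hL'X, hL'c, hsep0⟩ := exists_split A C B X m₁ (by omega)
    (fun x hx => ⟨(hXin x hx).2.2, (hXin x hx).2.1⟩)
    (fun x hx y hy hxy => hgp2 B hB x ((hXmem x).1 hx).2.2.2 y ((hXmem y).1 hy).2.2.2
      (Ne.symm ((hXmem x).1 hx).1) (Ne.symm ((hXmem y).1 hy).1) hxy) hACB
  set R' : Finset P := X \ L' with hR'
  have hR'c : R'.card = m₂ := by rw [hR', Finset.card_sdiff_of_subset hL'X]; omega
  have hLX : ∀ x ∈ L', x ∈ X := fun x hx => hL'X hx
  have hRX : ∀ x ∈ R', x ∈ X := fun x hx => (Finset.mem_sdiff.1 hx).1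
  -- the lists of the first set
  set L1 : List P := List.ofFn (fun i : Fin m₁ => l i.succ.castSucc) with hL1
  set R1 : List P := List.ofFn (fun i : Fin m₂ => r i.succ.castSucc) with hR1
  have hLf : l 0 :: L1 = List.ofFn (fun i : Fin (m₁ + 1) => l i.castSucc) := by
    rw [List.ofFn_succ]; rfl
  have hRf : r 0 :: R1 = List.ofFn (fun i : Fin (m₂ + 1) => r i.castSucc) := by
    rw [List.ofFn_succ]; rfl
  have hLfull : l 0 :: (L1 ++ [l (Fin.last _)]) = List.ofFn l := by
    rw [List.ofFn_succ' l, ← hLf]; simp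
  have hRfull : r 0 :: (R1 ++ [r (Fin.last _)]) = List.ofFn r := by
    rw [List.ofFn_succ' r, ← hRf]; simp
  have hLmem : ∀ u ∈ l 0 :: L1, ∃ i : Fin (m₁ + 1), l i.castSucc = u := by
    intro u hu; rw [hLf] at hu; exact List.mem_ofFn.1 hu
  have hRmem : ∀ u ∈ r 0 :: R1, ∃ i : Fin (m₂ + 1), r i.castSucc = u := by
    intro u hu; rw [hRf] at hu; exact List.mem_ofFn.1 hu
  have hcl : ∀ {n : ℕ} (i : Fin (n + 1)), i.castSucc ≠ Fin.last (n + 1) :=
    fun i => (Fin.castSucc_lt_last i).ne
  obtain ⟨ZL, ZR, F, h1, h2, h4, h5, h6, h7, h8, h9, h10, h11, h12, h13⟩ :=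
    peel (l (Fin.last _), B) (m₁ + m₂) L1 R1 L' R' (l 0, A) (r 0, C) (by omega)
      (by rw [hL1, List.length_ofFn]; omega) (by rw [hR1, List.length_ofFn]; omega)
      (by
        show (l 0 :: L1).Pairwise _
        rw [hLf, List.pairwise_ofFn]
        intro i j hij p hp
        obtain ⟨k, rfl⟩ := hRmem p hp
        exact h.mixL _ _ (Fin.castSucc_lt_castSucc_iff.2 hij) _ (hcl k))
      (by
        show (r 0 :: R1).Pairwise _
        rw [hRf, List.pairwise_ofFn]
        intro i j hij p hp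
        obtain ⟨k, rfl⟩ := hLmem p hp
        exact h.mixR _ _ (Fin.castSucc_lt_castSucc_iff.2 hij) _ (hcl k))
      (by
        intro u hu v hv
        obtain ⟨i, rfl⟩ := hLmem u hu
        obtain ⟨j, rfl⟩ := hRmem v hv
        exact h.mixL _ _ (Fin.castSucc_lt_last i) _ (hcl j))
      (by
        have hsub : ∀ p ∈ insert A (insert C (L' ∪ R')), p ∈ S₂ := by
          intro p hp
          simp only [Finset.mem_insert, Finset.mem_union] at hp
          rcases hp with rfl | rfl | hp | hp
          · exact hA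
          · exact hC
          · exact ((hXmem p).1 (hLX p hp)).2.2.2
          · exact ((hXmem p).1 (hRX p hp)).2.2.2
        intro p hp q hq s hs
        exact hgp2 p (hsub p hp) q (hsub q hq) s (hsub s hs))
      (by
        intro x hx y hy
        rcases Finset.mem_insert.1 hx with hx | hx <;> rcases Finset.mem_insert.1 hy with hy | hy
        · rw [hx, hy]
          show 0 < o B A C
          rw [← o_cyc]; exact hACB
        · rw [hx]
          exact (hXin y (hRX y hy)).2.2
        · rw [hy]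
          show 0 < o B x C
          have := (hXin x (hLX x hx)).2.1
          rw [← o_cyc'] at this
          rw [← o_cyc, ← o_cyc']
          unfold o at *; linarith
        · exact hsep0 x hx y hy)
      (by
        intro x hx
        rcases Finset.mem_union.1 hx with hx | hx
        · exact (hXin x (hLX x hx)).1
        · exact (hXin x (hRX x hx)).1)
  have hZL2 : ∀ v ∈ ZL, v.2 ∈ L' := fun v hv => (h5 v.2).1 (List.mem_map.2 ⟨v, hv, rfl⟩)
  have hZR2 : ∀ v ∈ ZR, v.2 ∈ R' := fun v hv => (h7 v.2).1 (List.mem_map.2 ⟨v, hv, rfl⟩)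
  -- second coordinates: no repetitions
  have hnL : (A :: (ZL.map Prod.snd ++ [B])).Nodup := by
    rw [List.nodup_cons]
    constructor
    · intro hm
      rcases List.mem_append.1 hm with hm | hm
      · exact ((hXmem A).1 (hLX A ((h5 A).1 hm))).2.2.1 rfl
      · exact nBA (List.mem_singleton.1 hm).symm
    · rw [List.nodup_append]
      refine ⟨h4, by simp, ?_⟩
      intro p hp q hq e
      rw [List.mem_singleton.1 hq] at e
      rw [e] at hp
      exact ((hXmem B).1 (hLX B ((h5 B).1 hp))).1 rfl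
  have hnR : (C :: (ZR.map Prod.snd ++ [B])).Nodup := by
    rw [List.nodup_cons]
    constructor
    · intro hm
      rcases List.mem_append.1 hm with hm | hm
      · exact ((hXmem C).1 (hRX C ((h7 C).1 hm))).2.1 rfl
      · exact nCB (List.mem_singleton.1 hm)
    · rw [List.nodup_append]
      refine ⟨h6, by simp, ?_⟩
      intro p hp q hq e
      rw [List.mem_singleton.1 hq] at e
      rw [e] at hp
      exact ((hXmem B).1 (hRX B ((h7 B).1 hp))).1 rfl
  obtain ⟨FL, hFLp, hFLm, hFLb⟩ := pocket Prod.fst Prod.snd (l (Fin.last _), B) ZL (l 0, A)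
    (by
      apply Trip_of_map (f := Prod.fst) (R := fun u v w => 0 < o u v w)
      rw [List.map_cons, List.map_append, h1, List.map_singleton]
      show Trip _ (l 0 :: (L1 ++ [l (Fin.last _)]))
      rw [hLfull]
      exact Trip_ofFn h.left)
    (by
      apply Trip_of_map (f := Prod.snd) (R := fun u v w => o u v w ≠ 0)
      rw [List.map_cons, List.map_append, List.map_singleton]
      apply Trip_ne hgp2 hnL
      intro p hp
      simp only [List.mem_cons, List.mem_append, List.not_mem_nil, or_false] at hp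
      rcases hp with rfl | hp | rfl
      · exact hA
      · exact ((hXmem p).1 (hLX p ((h5 p).1 hp))).2.2.2
      · exact hB)
    h8
    (by
      intro v hv
      have := (hXin _ (hLX _ (hZL2 v hv))).2.2
      rw [← o_cyc] at this
      exact this)
  obtain ⟨FR, hFRp, hFRm, hFRb⟩ := pocket (fun i : P × P => rf i.1) (fun i => rf i.2)
    (l (Fin.last _), B) ZR (r 0, C)
    (by
      apply Trip_of_map (f := Prod.fst) (R := fun u v w => 0 < o (rf u) (rf v) (rf w))
      rw [List.map_cons, List.map_append, h2, List.map_singleton]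
      show Trip _ (r 0 :: (R1 ++ [l (Fin.last _)]))
      rw [h.apex, hRfull]
      apply Trip_ofFn
      intro i j k hij hjk
      have := h.right i j k hij hjk
      rw [o_rf]
      unfold o at *; linarith)
    (by
      apply Trip_of_map (f := Prod.snd) (R := fun u v w => o (rf u) (rf v) (rf w) ≠ 0)
      rw [List.map_cons, List.map_append, List.map_singleton]
      have := Trip_ne hgp2 hnR (by
        intro p hp
        simp only [List.mem_cons, List.mem_append, List.not_mem_nil, or_false] at hp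
        rcases hp with rfl | hp | rfl
        · exact hC
        · exact ((hXmem p).1 (hRX p ((h7 p).1 hp))).2.2.2
        · exact hB)
      simp only [o_rf, ne_eq, neg_eq_zero]
      exact this)
    h9
    (by
      intro v hv
      have := (hXin _ (hRX _ (hZR2 v hv))).2.1
      rw [o_rf]
      unfold o at *; linarith)
  set bι : P × P := (l (Fin.last _), B) with hbι
  set lι : P × P := (l 0, A) with hlι
  set rι : P × P := (r 0, C) with hrι
  set Z : List (P × P) := bι :: ((lι :: ZL) ++ (rι :: ZR)) with hZ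
  set FT := F ++ (FL ++ FR.map sw) with hFT
  have hpos : ∀ f ∈ FT, Pos2 Prod.fst Prod.snd f := by
    intro f hf
    rcases List.mem_append.1 hf with hf | hf
    · exact h10 f hf
    · rcases List.mem_append.1 hf with hf | hf
      · exact hFLp f hf
      · obtain ⟨g, hg, rfl⟩ := List.mem_map.1 hf
        obtain ⟨p1, p2⟩ := hFRp g hg
        rw [o_rf] at p1 p2
        refine ⟨?_, ?_⟩
        · show 0 < o g.1.1 g.2.2.1 g.2.1.1
          rw [o_swap23]; exact p1
        · show 0 < o g.1.2 g.2.2.2 g.2.1.2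
          rw [o_swap23]; exact p2
  have hmem : ∀ f ∈ FT, f.1 ∈ Z ∧ f.2.1 ∈ Z ∧ f.2.2 ∈ Z := by
    have subL : ∀ i, i ∈ lι :: (ZL ++ [bι]) → i ∈ Z := by
      intro i hi
      rw [hZ]
      simp only [List.mem_cons, List.mem_append, List.not_mem_nil, or_false] at hi ⊢
      tauto
    have subR : ∀ i, i ∈ rι :: (ZR ++ [bι]) → i ∈ Z := by
      intro i hi
      rw [hZ]
      simp only [List.mem_cons, List.mem_append, List.not_mem_nil, or_false] at hi ⊢
      tauto
    intro f hf
    rcases List.mem_append.1 hf with hf | hf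
    · exact h11 f hf
    · rcases List.mem_append.1 hf with hf | hf
      · obtain ⟨a1, a2, a3⟩ := hFLm f hf
        exact ⟨subL _ a1, subL _ a2, subL _ a3⟩
      · obtain ⟨g, hg, rfl⟩ := List.mem_map.1 hf
        obtain ⟨a1, a2, a3⟩ := hFRm g hg
        exact ⟨subR _ a1, subR _ a3, subR _ a2⟩
  have hused : ∀ i ∈ Z, ∃ f ∈ FT, i = f.1 ∨ i = f.2.1 ∨ i = f.2.2 := by
    intro i hi
    obtain ⟨f, hf, hh⟩ := h12 i hi
    exact ⟨f, List.mem_append_left _ hf, hh⟩
  have hbd : ∀ w : P × P → P × P → ℝ, (∀ u v, w v u = - w u v) →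
      bds w FT = w lι rι + w rι bι + w bι lι := by
    intro w hw
    rw [hFT, bds_append, bds_append, bds_sw w hw, h13 w hw, hFLb w hw, hFRb w hw, hw lι bι]
    ring
  have hbij1 : Set.BijOn Prod.fst {i | i ∈ Z} ((dcSet l r : Finset P) : Set P) := by
    have hmap : Z.map Prod.fst = l (Fin.last _) :: ((l 0 :: L1) ++ (r 0 :: R1)) := by
      rw [hZ, List.map_cons, List.map_append, List.map_cons, List.map_cons, h1, h2]
    apply bijOn_list
    · rw [hmap, List.nodup_cons]
      constructor
      · intro hm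
        rcases List.mem_append.1 hm with hm | hm
        · obtain ⟨i, hi⟩ := hLmem _ hm
          exact h.lne (Fin.castSucc_lt_last i) hi
        · obtain ⟨i, hi⟩ := hRmem _ hm
          rw [h.apex] at hi
          exact h.rne (Fin.castSucc_lt_last i) hi
      · rw [List.nodup_append]
        refine ⟨?_, ?_, ?_⟩
        · rw [hLf, List.nodup_ofFn]
          intro i j hij
          by_contra hne
          rcases lt_or_gt_of_ne hne with hlt | hlt
          · exact h.lne (Fin.castSucc_lt_castSucc_iff.2 hlt) hij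
          · exact h.lne (Fin.castSucc_lt_castSucc_iff.2 hlt) hij.symm
        · rw [hRf, List.nodup_ofFn]
          intro i j hij
          by_contra hne
          rcases lt_or_gt_of_ne hne with hlt | hlt
          · exact h.rne (Fin.castSucc_lt_castSucc_iff.2 hlt) hij
          · exact h.rne (Fin.castSucc_lt_castSucc_iff.2 hlt) hij.symm
        · intro p hp q hq e
          obtain ⟨i, rfl⟩ := hLmem p hp
          obtain ⟨j, rfl⟩ := hRmem q hq
          exact h.lrne _ _ (hcl i) e
    · intro p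
      rw [hmap, mem_dcSet]
      constructor
      · intro hp
        rcases List.mem_cons.1 hp with hp | hp
        · exact Or.inl ⟨_, hp.symm⟩
        · rcases List.mem_append.1 hp with hp | hp
          · obtain ⟨i, hi⟩ := hLmem p hp
            exact Or.inl ⟨_, hi⟩
          · obtain ⟨i, hi⟩ := hRmem p hp
            exact Or.inr ⟨_, hi⟩
      · rintro (⟨i, rfl⟩ | ⟨i, rfl⟩)
        · have : l i ∈ List.ofFn l := List.mem_ofFn.2 ⟨i, rfl⟩
          rw [← hLfull] at this
          simp only [List.mem_cons, List.mem_append, List.not_mem_nil, or_false] at this ⊢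
          tauto
        · have : r i ∈ List.ofFn r := List.mem_ofFn.2 ⟨i, rfl⟩
          rw [← hRfull] at this
          rw [h.apex]
          simp only [List.mem_cons, List.mem_append, List.not_mem_nil, or_false] at this ⊢
          tauto
  have hbij2 : Set.BijOn Prod.snd {i | i ∈ Z} ((S₂ : Finset P) : Set P) := by
    have hmap : Z.map Prod.snd = B :: ((A :: ZL.map Prod.snd) ++ (C :: ZR.map Prod.snd)) := by
      rw [hZ, List.map_cons, List.map_append, List.map_cons, List.map_cons]
    rw [List.nodup_cons] at hnL hnR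
    apply bijOn_list
    · rw [hmap, List.nodup_cons]
      constructor
      · intro hm
        simp only [List.mem_cons, List.mem_append] at hm
        rcases hm with (hm | hm) | hm | hm
        · exact nBA hm
        · exact ((hXmem B).1 (hLX B ((h5 B).1 hm))).1 rfl
        · exact nCB hm.symm
        · exact ((hXmem B).1 (hRX B ((h7 B).1 hm))).1 rfl
      · rw [List.nodup_append]
        refine ⟨?_, ?_, ?_⟩
        · rw [List.nodup_cons]
          exact ⟨fun hm => hnL.1 (List.mem_append_left _ hm), h4⟩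
        · rw [List.nodup_cons]
          exact ⟨fun hm => hnR.1 (List.mem_append_left _ hm), h6⟩
        · intro p hp q hq e
          rw [← e] at hq
          rcases List.mem_cons.1 hp with hp | hp <;> rcases List.mem_cons.1 hq with hq | hq
          · exact nAC (hp.symm.trans hq)
          · rw [hp] at hq
            exact ((hXmem A).1 (hRX A ((h7 A).1 hq))).2.2.1 rfl
          · rw [hq] at hp
            exact ((hXmem C).1 (hLX C ((h5 C).1 hp))).2.1 rfl
          · exact (Finset.mem_sdiff.1 ((h7 p).1 hq)).2 ((h5 p).1 hp)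
    · intro p
      rw [hmap]
      simp only [List.mem_cons, List.mem_append]
      constructor
      · rintro (rfl | (rfl | hp) | rfl | hp)
        · exact hB
        · exact hA
        · exact ((hXmem p).1 (hLX p ((h5 p).1 hp))).2.2.2
        · exact hC
        · exact ((hXmem p).1 (hRX p ((h7 p).1 hp))).2.2.2
      · intro hp
        by_cases e1 : p = B
        · exact Or.inl e1
        · by_cases e2 : p = A
          · exact Or.inr (Or.inl (Or.inl e2))
          · by_cases e3 : p = C
            · exact Or.inr (Or.inr (Or.inl e3))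
            · have hpX : p ∈ X := (hXmem p).2 ⟨e1, e3, e2, hp⟩
              by_cases e4 : p ∈ L'
              · exact Or.inr (Or.inl (Or.inr ((h5 p).2 e4)))
              · exact Or.inr (Or.inr (Or.inr ((h7 p).2 (Finset.mem_sdiff.2 ⟨hpX, e4⟩))))
  have hZl : lι ∈ Z := by rw [hZ]; simp
  have hZr : rι ∈ Z := by rw [hZ]; simp
  have hZb : bι ∈ Z := by rw [hZ]; simp
  exact master FT Prod.fst Prod.snd (dcSet l r) S₂ lι rι bι
    (cov_of hZl hZr hZb hbij1 h.gp h.hull h.inside hmem (fun f hf => (hpos f hf).1) hused hbd)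
    (cov_of hZl hZr hZb hbij2 hgp2 hACB hin hmem (fun f hf => (hpos f hf).2) hused hbd)
    {i | i ∈ Z} hmem hbij1 hbij2

end Pool.Agent.Helper111_Chain
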